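import Mathlib

/-! Approximation of kernel dimensions of integral group ring matrices over finite quotients. -/

namespace Pool.Agent.MP_26f8ef_al.H29

open Matrix Polynomial

section spectral
variable {n : Type} [Fintype n] [DecidableEq n]

lemma eig_le (D : Matrix n n ℝ) (hD : D.IsHermitian) (C : ℝ) (hC : ∀ i, ∑ j, |D i j| ≤ C)
    (i : n) : hD.eigenvalues i ≤ C := by
  have hv := hD.mulVec_eigenvectorBasis i
  set v : n → ℝ := ⇑(hD.eigenvectorBasis i) with hvdef
  have hne : v ≠ 0 := by
    intro h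
    have := (hD.eigenvectorBasis).orthonormal.ne_zero i
    apply this
    ext k
    exact congrFun h k
  obtain ⟨k, -, hk⟩ := Finset.exists_max_image Finset.univ (fun k => |v k|) ⟨i, Finset.mem_univ _⟩
  have hpos : 0 < |v k| := by
    obtain ⟨l, hl⟩ := Function.ne_iff.1 hne
    exact lt_of_lt_of_le (abs_pos.2 hl) (hk l (Finset.mem_univ _))
  have h1 : hD.eigenvalues i * v k = ∑ j, D k j * v j := by
    have := congrFun hv k
    simpa [Matrix.mulVec, dotProduct] using this.symm
  have h2 : |hD.eigenvalues i| * |v k| ≤ C * |v k| := by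
    rw [← abs_mul, h1]
    calc |∑ j, D k j * v j| ≤ ∑ j, |D k j * v j| := Finset.abs_sum_le_sum_abs _ _
      _ ≤ ∑ j, |D k j| * |v k| := Finset.sum_le_sum fun j _ => by
          rw [abs_mul]
          exact mul_le_mul_of_nonneg_left (hk j (Finset.mem_univ _)) (abs_nonneg _)
      _ = (∑ j, |D k j|) * |v k| := by rw [Finset.sum_mul]
      _ ≤ C * |v k| := mul_le_mul_of_nonneg_right (hC k) hpos.le
  exact (le_abs_self _).trans (le_of_mul_le_mul_right h2 hpos)

lemma trace_pow_eq (D : Matrix n n ℝ) (hD : D.IsHermitian) (C j : ℕ) :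
    (((C : Matrix n n ℝ) - D) ^ j).trace = ∑ i, ((C : ℝ) - hD.eigenvalues i) ^ j := by
  have h := hD.spectral_theorem
  set φ := Unitary.conjStarAlgAut ℝ (Matrix n n ℝ) hD.eigenvectorUnitary with hφ
  have h2 : ((C : Matrix n n ℝ) - D) ^ j =
      φ (diagonal fun i => ((C : ℝ) - hD.eigenvalues i) ^ j) := by
    conv_lhs => rw [h, ← map_natCast φ, ← map_sub, ← map_pow]
    congr 1
    rw [← Matrix.diagonal_natCast, Matrix.diagonal_sub, Matrix.diagonal_pow]
    congr 1
  rw [h2, hφ, Unitary.conjStarAlgAut_apply, Matrix.trace_mul_comm, ← mul_assoc]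
  simp

lemma one_le_prod_eig (D : Matrix n n ℤ) (hD : (D.map (Int.cast : ℤ → ℝ)).IsHermitian) :
    1 ≤ ∏ i ∈ Finset.univ.filter (fun i => hD.eigenvalues i ≠ 0), |hD.eigenvalues i| := by
  have h1 : (D.map (Int.cast : ℤ → ℝ)).charpoly = D.charpoly.map (Int.castRingHom ℝ) :=
    Matrix.charpoly_map D (Int.castRingHom ℝ)
  have h2 := hD.charpoly_eq
  rw [← Finset.prod_filter_mul_prod_filter_not Finset.univ (fun i => hD.eigenvalues i ≠ 0)] at h2
  set z := (Finset.univ.filter (fun i => ¬ hD.eigenvalues i ≠ 0)).card with hz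
  have h3 : ∏ i ∈ Finset.univ.filter (fun i => ¬ hD.eigenvalues i ≠ 0),
      (X - C (hD.eigenvalues i : ℝ) : ℝ[X]) = X ^ z := by
    rw [hz, ← Finset.prod_const]
    refine Finset.prod_congr rfl fun i hi => ?_
    have : hD.eigenvalues i = 0 := by simpa using hi
    simp [this]
  have h4 : ((D.charpoly.coeff z : ℤ) : ℝ) =
      ∏ i ∈ Finset.univ.filter (fun i => hD.eigenvalues i ≠ 0), (- hD.eigenvalues i) := by
    have := congrArg (fun q => Polynomial.coeff q (0 + z)) (h1.symm.trans h2)
    simp only [RCLike.ofReal_real_eq_id, id] at this h3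
    rw [h3, Polynomial.coeff_mul_X_pow, Polynomial.coeff_zero_eq_eval_zero,
      Polynomial.eval_prod] at this
    simpa using this
  have h5 : D.charpoly.coeff z ≠ 0 := by
    intro h
    rw [h, Int.cast_zero, eq_comm, Finset.prod_eq_zero_iff] at h4
    obtain ⟨i, hi, h0⟩ := h4
    simp only [Finset.mem_filter] at hi
    exact hi.2 (neg_eq_zero.1 h0)
  have h6 : (1 : ℝ) ≤ |((D.charpoly.coeff z : ℤ) : ℝ)| := by
    rw [← Int.cast_abs]
    exact_mod_cast Int.one_le_abs h5
  rw [h4, Finset.abs_prod] at h6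
  simpa using h6

end spectral

lemma spectral (C : ℕ) (hC : 1 ≤ C) (η : ℝ) (hη : 0 < η) : ∃ j : ℕ,
    ∀ (n : Type) [Fintype n] [DecidableEq n] (D : Matrix n n ℤ),
      (D.map (Int.cast : ℤ → ℝ)).PosSemidef → (∀ i, ∑ j, |D i j| ≤ C) →
      ((Fintype.card n : ℝ) - (D.map (Int.cast : ℤ → ℝ)).rank) * C ^ j ≤
          ((((C : Matrix n n ℤ) - D) ^ j).trace : ℤ) ∧
        (((((C : Matrix n n ℤ) - D) ^ j).trace : ℤ) : ℝ) ≤
          ((Fintype.card n : ℝ) - (D.map (Int.cast : ℤ → ℝ)).rank + η * Fintype.card n) * C ^ j := by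
  obtain ⟨m, hm⟩ := exists_nat_gt (2 / η)
  have hm0 : (0 : ℝ) < m := lt_trans (by positivity) hm
  have hC' : (1 : ℝ) ≤ C := by exact_mod_cast hC
  set θ : ℝ := (((C : ℝ) + 1) ^ m)⁻¹ with hθ
  have hθ0 : 0 < θ := by positivity
  have hθ1 : θ ≤ 1 := inv_le_one_of_one_le₀ (one_le_pow₀ (by linarith))
  obtain ⟨j, hj⟩ := exists_pow_lt_of_lt_one (x := η / 2) (y := 1 - θ / C) (by positivity)
    (by have : 0 < θ / C := by positivity
        linarith)
  refine ⟨j, fun n _ _ D hD hrow => ?_⟩
  have htr : (((((C : Matrix n n ℤ) - D) ^ j).trace : ℤ) : ℝ) =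
      ∑ i, ((C : ℝ) - hD.1.eigenvalues i) ^ j := by
    rw [← trace_pow_eq _ hD.1]
    have := AddMonoidHom.map_trace (Int.castRingHom ℝ) (((C : Matrix n n ℤ) - D) ^ j)
    rw [show ((((C : Matrix n n ℤ) - D) ^ j).map (Int.castRingHom ℝ)) =
      (Int.castRingHom ℝ).mapMatrix (((C : Matrix n n ℤ) - D) ^ j) from rfl, map_pow, map_sub,
      map_natCast] at this
    exact this
  set l := hD.1.eigenvalues with hl
  have hl0 : ∀ i, 0 ≤ l i := hD.eigenvalues_nonneg
  have hlC : ∀ i, l i ≤ C := eig_le _ hD.1 C fun i => by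
    have := hrow i
    simp only [Matrix.map_apply, ← Int.cast_abs]
    exact_mod_cast this
  have hz : (Fintype.card n : ℝ) - (D.map (Int.cast : ℤ → ℝ)).rank =
      ∑ i, if l i = 0 then (1 : ℝ) else 0 := by
    rw [hD.1.rank_eq_card_non_zero_eigs, Fintype.card_subtype, Finset.sum_boole, sub_eq_iff_eq_add]
    have := Finset.card_filter_add_card_filter_not (s := Finset.univ) (fun i => l i = 0)
    rw [Finset.card_univ] at this
    exact_mod_cast this.symm
  rw [htr, hz]
  constructor
  · rw [Finset.sum_mul]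
    refine Finset.sum_le_sum fun i _ => ?_
    split_ifs with h
    · simp [h]
    · simpa using pow_nonneg (sub_nonneg.2 (hlC i)) j
  · set s := (Finset.univ.filter (fun i => l i ≠ 0 ∧ l i < θ)).card with hs
    have hs1 : (s : ℝ) * m ≤ Fintype.card n := by
      have h1 := one_le_prod_eig D hD.1
      rw [← hl] at h1
      have h2 : ∏ i ∈ Finset.univ.filter (fun i => l i ≠ 0), |l i| ≤
          ∏ i, ((if l i ≠ 0 ∧ l i < θ then θ else 1) * ((C : ℝ) + 1)) := by
        rw [Finset.prod_filter]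
        refine Finset.prod_le_prod (fun i _ => by positivity) fun i _ => ?_
        rw [abs_of_nonneg (hl0 i)]
        have := hlC i
        by_cases h0 : l i = 0
        · simp [h0]
        · by_cases h3 : l i < θ
          · simp only [h0, h3, ne_eq, not_false_eq_true, if_true, and_self]
            nlinarith
          · simp only [h0, h3, ne_eq, not_false_eq_true, if_true, and_false, if_false]
            linarith
      rw [Finset.prod_mul_distrib, Finset.prod_const, Finset.card_univ, ← Finset.prod_filter,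
        Finset.prod_const, ← hs, hθ, inv_pow, ← pow_mul] at h2
      have h3 := h1.trans h2
      rw [← div_eq_inv_mul, one_le_div (by positivity),
        pow_le_pow_iff_right₀ (by linarith)] at h3
      rw [mul_comm]
      exact_mod_cast h3
    have hs2 : (s : ℝ) ≤ η / 2 * Fintype.card n := by
      have h1 : 2 < m * η := by rwa [div_lt_iff₀ hη] at hm
      have h2 : (0 : ℝ) ≤ s := by positivity
      nlinarith
    calc ∑ i, ((C : ℝ) - l i) ^ j ≤ ∑ i, ((if l i = 0 then (1 : ℝ) else 0) +
            (if l i ≠ 0 ∧ l i < θ then (1 : ℝ) else 0) + η / 2) * C ^ j := by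
          refine Finset.sum_le_sum fun i _ => ?_
          have h1 : ((C : ℝ) - l i) ^ j ≤ C ^ j :=
            pow_le_pow_left₀ (sub_nonneg.2 (hlC i)) (by linarith [hl0 i]) j
          have h2 : (0 : ℝ) < C ^ j := by positivity
          by_cases h0 : l i = 0
          · simp only [h0, if_true, ne_eq, not_true_eq_false, false_and, if_false] at h1 ⊢
            nlinarith
          · by_cases h3 : l i < θ
            · simp only [h0, h3, ne_eq, not_false_eq_true, if_true, and_self, if_false]
              nlinarith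
            · simp only [h0, h3, if_false, and_false, zero_add]
              have h4 : (C : ℝ) - l i ≤ (1 - θ / C) * C := by
                rw [sub_mul, div_mul_cancel₀ _ (by positivity)]
                linarith
              calc ((C : ℝ) - l i) ^ j ≤ ((1 - θ / C) * C) ^ j :=
                    pow_le_pow_left₀ (sub_nonneg.2 (hlC i)) h4 j
                _ ≤ η / 2 * C ^ j := by
                    rw [mul_pow]
                    exact mul_le_mul_of_nonneg_right hj.le h2.le
      _ ≤ _ := by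
          rw [← Finset.sum_mul]
          refine mul_le_mul_of_nonneg_right ?_ (by positivity)
          rw [Finset.sum_add_distrib, Finset.sum_add_distrib, Finset.sum_const, Finset.card_univ,
            nsmul_eq_mul, Finset.sum_boole (fun i => l i ≠ 0 ∧ l i < θ), ← hs]
          linarith

section big
open MonoidAlgebra
variable {Γ E : Type} [Group Γ] [Group E] [Fintype E] {ι J L : Type}

/-- The integer matrix of a group ring matrix in the regular representation of a finite image. -/
noncomputable def big (κ : Γ →* E) (A : Matrix ι J (MonoidAlgebra ℤ Γ)) :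
    Matrix (ι × E) (J × E) ℤ :=
  Matrix.of fun x y => (mapDomainRingHom ℤ κ (A x.1 y.1)).coeff (x.2⁻¹ * y.2)

lemma coeff_mul_fin {R : Type} [Semiring R] (x y : MonoidAlgebra R E) (g h : E) :
    (x * y).coeff (g⁻¹ * h) = ∑ e, x.coeff (g⁻¹ * e) * y.coeff (e⁻¹ * h) := by
  rw [coeff_mul_apply_left, Finsupp.sum_fintype _ _ (by simp),
    ← Equiv.sum_comp (Equiv.mulLeft g⁻¹)]
  refine Finset.sum_congr rfl fun e _ => ?_
  simp [mul_assoc]

lemma big_mul [Fintype J] (κ : Γ →* E) (A : Matrix ι J (MonoidAlgebra ℤ Γ))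
    (B : Matrix J L (MonoidAlgebra ℤ Γ)) : big κ (A * B) = big κ A * big κ B := by
  ext x y
  simp only [big, Matrix.mul_apply, Matrix.of_apply, map_sum, map_mul, MonoidAlgebra.coeff_sum,
    Finsupp.finsetSum_apply, Fintype.sum_prod_type, coeff_mul_fin]

/-- `big` as a ring homomorphism on square matrices. -/
noncomputable def bigHom [DecidableEq E] [Fintype ι] [DecidableEq ι] (κ : Γ →* E) :
    Matrix ι ι (MonoidAlgebra ℤ Γ) →+* Matrix (ι × E) (ι × E) ℤ where
  toFun := big κ
  map_one' := by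
    ext ⟨i, g⟩ ⟨j, h⟩
    simp only [big, Matrix.of_apply, Matrix.one_apply, Prod.mk.injEq]
    by_cases hij : i = j
    · simp [hij, one_def, Finsupp.single_apply, eq_inv_mul_iff_mul_eq]
    · simp [hij]
  map_mul' := big_mul κ
  map_zero' := by ext x y; simp [big]
  map_add' A B := by ext x y; simp [big, Finsupp.mapDomain_add]

/-- The adjoint matrix. -/
noncomputable def adj (A : Matrix ι J (MonoidAlgebra ℤ Γ)) : Matrix J ι (MonoidAlgebra ℤ Γ) :=
  Matrix.of fun j i => mapDomain (fun g => g⁻¹) (A i j)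

omit [Fintype E] in
lemma big_adj (κ : Γ →* E) (A : Matrix ι J (MonoidAlgebra ℤ Γ)) :
    big κ (adj A) = (big κ A)ᵀ := by
  ext ⟨j, h⟩ ⟨i, g⟩
  simp only [big, adj, Matrix.of_apply, Matrix.transpose_apply, mapDomainRingHom_apply,
    coeff_mapDomain]
  rw [← Finsupp.mapDomain_comp,
    show (κ ∘ fun g => g⁻¹) = (fun e => e⁻¹) ∘ κ from funext fun g => by simp,
    Finsupp.mapDomain_comp, show h⁻¹ * g = (g⁻¹ * h)⁻¹ by simp,
    Finsupp.mapDomain_apply inv_injective]

lemma sum_abs_map (κ : Γ →* E) (x : MonoidAlgebra ℤ Γ) (g : E) :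
    ∑ h, |(mapDomainRingHom ℤ κ x).coeff (g⁻¹ * h)| ≤ ∑ a ∈ x.coeff.support, |x.coeff a| := by
  classical
  refine (Equiv.sum_comp (Equiv.mulLeft g⁻¹)
    (fun e => |(mapDomainRingHom ℤ κ x).coeff e|)).le.trans ?_
  simp only [mapDomainRingHom_apply, coeff_mapDomain, Finsupp.mapDomain, Finsupp.sum,
    Finsupp.finsetSum_apply]
  calc _ ≤ ∑ e : E, ∑ a ∈ x.coeff.support, |(Finsupp.single (κ a) (x.coeff a)) e| :=
        Finset.sum_le_sum fun e _ => Finset.abs_sum_le_sum_abs _ _
    _ = _ := by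
        rw [Finset.sum_comm]
        refine Finset.sum_congr rfl fun a _ => ?_
        simp [Finsupp.single_apply, apply_ite (abs : ℤ → ℤ)]

lemma trace_big [Fintype ι] [DecidableEq E] (κ : Γ →* E) (A : Matrix ι ι (MonoidAlgebra ℤ Γ)) :
    (big κ A).trace = Fintype.card E *
      ∑ i, ∑ a ∈ (A i i).coeff.support, if κ a = 1 then (A i i).coeff a else 0 := by
  simp only [Matrix.trace, Matrix.diag, big, Matrix.of_apply, inv_mul_cancel,
    Fintype.sum_prod_type, Finset.sum_const, Finset.card_univ, nsmul_eq_mul, ← Finset.mul_sum,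
    mapDomainRingHom_apply, coeff_mapDomain, Finsupp.mapDomain, Finsupp.sum,
    Finsupp.finsetSum_apply, Finsupp.single_apply]

/-- Real rank in the regular representation of a finite image. -/
noncomputable def rk [Fintype J] (κ : Γ →* E) (A : Matrix ι J (MonoidAlgebra ℤ Γ)) : ℕ :=
  ((big κ A).map (Int.cast : ℤ → ℝ)).rank

end big

theorem luck {Γ : Type} [Group Γ] {ι J : Type} [Fintype ι] [Fintype J]
    (A : Matrix ι J (MonoidAlgebra ℤ Γ)) : ∃ Φ : Finset Γ,
    ∀ (E E' : Type) [Group E] [Group E'] [Fintype E] [Fintype E'] (κ : Γ →* E) (κ' : Γ →* E'),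
      (∀ g ∈ Φ, κ g = 1 ↔ κ' g = 1) →
      8 * ((Fintype.card ι : ℝ) * Fintype.card E - rk κ A) ≤ Fintype.card E →
      2 * ((Fintype.card ι : ℝ) * Fintype.card E' - rk κ' A) < Fintype.card E' := by
  classical
  set B := A * adj A with hB
  set C : ℕ := (∑ i, ∑ j, ∑ a ∈ (B i j).coeff.support, ((B i j).coeff a).natAbs) + 1 with hC
  have hι : (0 : ℝ) < 8 * (Fintype.card ι + 1) := by positivity
  obtain ⟨j, hj⟩ := spectral C (by omega) (8 * (Fintype.card ι + 1))⁻¹ (inv_pos.2 hι)
  set T := ((C : Matrix ι ι (MonoidAlgebra ℤ Γ)) - B) ^ j with hT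
  have key : ∀ (E : Type) [Group E] [Fintype E] (κ : Γ →* E),
      ((Fintype.card ι : ℝ) * Fintype.card E - rk κ A) * C ^ j ≤ ((big κ T).trace : ℤ) ∧
      (((big κ T).trace : ℤ) : ℝ) ≤ ((Fintype.card ι : ℝ) * Fintype.card E - rk κ A +
        (8 * ((Fintype.card ι : ℝ) + 1))⁻¹ * (Fintype.card ι * Fintype.card E)) * C ^ j := by
    intro E _ _ κ
    have h1 : (big κ B).map (Int.cast : ℤ → ℝ) =
        (big κ A).map (Int.cast : ℤ → ℝ) * ((big κ A).map (Int.cast : ℤ → ℝ))ᵀ := by
      rw [hB, big_mul, big_adj]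
      exact Matrix.map_mul (f := Int.castRingHom ℝ)
    have h2 : ((big κ B).map (Int.cast : ℤ → ℝ)).PosSemidef := by
      rw [h1]
      simpa using Matrix.posSemidef_self_mul_conjTranspose ((big κ A).map (Int.cast : ℤ → ℝ))
    have h3 := hj (ι × E) (big κ B) h2 (by
      rintro ⟨i, g⟩
      rw [Fintype.sum_prod_type]
      calc _ ≤ ∑ j, ∑ a ∈ (B i j).coeff.support, |(B i j).coeff a| :=
            Finset.sum_le_sum fun j _ => sum_abs_map κ (B i j) g
        _ ≤ ∑ i, ∑ j, ∑ a ∈ (B i j).coeff.support, |(B i j).coeff a| :=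
            Finset.single_le_sum (f := fun i => ∑ j, ∑ a ∈ (B i j).coeff.support,
              |(B i j).coeff a|) (fun _ _ => by positivity) (Finset.mem_univ i)
        _ ≤ C := by rw [hC]; push_cast; linarith)
    have h4 : big κ T = ((C : Matrix (ι × E) (ι × E) ℤ) - big κ B) ^ j := by
      change bigHom κ T = (_ - bigHom κ B) ^ j
      rw [hT, map_pow, map_sub, map_natCast]
    rw [h1, Matrix.rank_self_mul_transpose, ← h4, Fintype.card_prod] at h3
    push_cast at h3
    exact h3
  refine ⟨Finset.univ.biUnion fun i => (T i i).coeff.support, fun E E' _ _ _ _ κ κ' hκ h8 => ?_⟩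
  have h1 := (key E κ).2
  have h2 := (key E' κ').1
  rw [trace_big] at h1 h2
  have h3 : (∑ i, ∑ a ∈ (T i i).coeff.support, if κ' a = 1 then (T i i).coeff a else 0) =
      ∑ i, ∑ a ∈ (T i i).coeff.support, if κ a = 1 then (T i i).coeff a else 0 :=
    Finset.sum_congr rfl fun i _ => Finset.sum_congr rfl fun a ha => by
      rw [if_congr (hκ a (Finset.mem_biUnion.2 ⟨i, Finset.mem_univ _, ha⟩)) rfl rfl]
  rw [h3] at h2
  push_cast [-Int.cast_sum] at h1 h2
  set t : ℝ := ((∑ i, ∑ a ∈ (T i i).coeff.support,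
    if κ a = 1 then (T i i).coeff a else 0 : ℤ) : ℝ)
  have hE : (0 : ℝ) < Fintype.card E := by exact_mod_cast Fintype.card_pos
  have hE' : (0 : ℝ) < Fintype.card E' := by exact_mod_cast Fintype.card_pos
  have hc : (0 : ℝ) < (C : ℝ) ^ j := by positivity
  have h5 : (8 * ((Fintype.card ι : ℝ) + 1))⁻¹ * Fintype.card ι ≤ 1 / 8 := by
    rw [inv_mul_le_iff₀ hι]
    linarith
  have h6 : t ≤ 1 / 4 * C ^ j := by
    have h7 : (8 * ((Fintype.card ι : ℝ) + 1))⁻¹ * (Fintype.card ι * Fintype.card E) ≤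
        1 / 8 * Fintype.card E := by
      rw [← mul_assoc]
      exact mul_le_mul_of_nonneg_right h5 hE.le
    have h9 : Fintype.card E * t ≤ Fintype.card E * (1 / 4 * C ^ j) := by
      refine h1.trans ?_
      rw [← mul_assoc (Fintype.card E : ℝ)]
      refine mul_le_mul_of_nonneg_right ?_ hc.le
      linarith
    exact le_of_mul_le_mul_left h9 hE
  have h10 : ((Fintype.card ι : ℝ) * Fintype.card E' - rk κ' A) * C ^ j ≤
      (1 / 4 * Fintype.card E') * C ^ j := by
    refine h2.trans ?_
    nlinarith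
  have := le_of_mul_le_mul_right h10 hc
  linarith

end Pool.Agent.MP_26f8ef_al.H29
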