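import Pool.Agent.MP_26f8ef_al.H29.TF

/-! The least fixed point argument: parafree groups are equationally Noetherian. -/

namespace Pool.Agent.MP_26f8ef_al.H29

open MonoidAlgebra Filter Matrix

section core
variable {β : Type} {I : Type*} {G α : I → Type} [∀ n, Group (G n)] (p : I → ℕ)
  [∀ n, Fact (p n).Prime] (φ : ∀ n, FreeGroup β →* G n) (ω : Ultrafilter I)

/-- Good normal subgroups containing the image of `T`. -/
def Adm (n : I) (T : Set (FreeGroup β)) (K : Subgroup (G n)) : Prop :=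
  Good (p n) K ∧ ∀ t ∈ T, φ n t ∈ K

/-- Elements that lie, for most indices, in all admissible subgroups. -/
def St (T : Set (FreeGroup β)) : Set (FreeGroup β) :=
  {g | ∀ᶠ n in ω, ∀ K, Adm p φ n T K → φ n g ∈ K}

/-- All admissible `p`-adic derivations vanish at the image of `g`. -/
def Kill (n : I) (T : Set (FreeGroup β)) (g : FreeGroup β) : Prop :=
  ∀ K, Adm p φ n T K → ∀ (E : Type) [Group E] [Finite E] (π : G n →* E)
    (D : G n → MonoidAlgebra ℤ_[p n] E), IsPGroup (p n) E → Function.Surjective π → K ≤ π.ker →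
    Der π D → D (φ n g) = 0

variable {p φ ω}

omit [∀ n, Fact (p n).Prime] in
lemma Adm.inf {n : I} {T : Set (FreeGroup β)} {K L : Subgroup (G n)} (hK : Adm p φ n T K)
    (hL : Adm p φ n T L) : Adm p φ n T (K ⊓ L) :=
  ⟨hK.1.inf hL.1, fun t ht => ⟨hK.2 t ht, hL.2 t ht⟩⟩

omit [∀ n, Fact (p n).Prime] in
lemma exists_small {S : Set (FreeGroup β)} (hS : St p φ ω S ⊆ S) (Φ : Finset (FreeGroup β)) :
    ∀ᶠ n in ω, ∃ K, Adm p φ n S K ∧ ∀ g ∈ Φ, φ n g ∈ K → g ∈ S := by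
  classical
  induction Φ using Finset.induction_on with
  | empty => exact Eventually.of_forall fun n => ⟨⊤, ⟨.top _, fun _ _ => trivial⟩, by simp⟩
  | insert g Φ _ ih =>
    by_cases hg : g ∈ S
    · refine ih.mono fun n ⟨K, hK, h⟩ => ⟨K, hK, fun x hx => ?_⟩
      rcases Finset.mem_insert.1 hx with rfl | hx
      exacts [fun _ => hg, h x hx]
    · filter_upwards [ih, Ultrafilter.eventually_not.2 fun h => hg (hS h)] with n ⟨K, hK, h⟩ h2
      push Not at h2
      obtain ⟨L, hL, h3⟩ := h2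
      refine ⟨K ⊓ L, hK.inf hL, fun x hx h4 => ?_⟩
      rcases Finset.mem_insert.1 hx with rfl | hx
      exacts [(h3 h4.2).elim, h x hx h4.1]

lemma ind_injective {X Y : Type} [Group X] [Group Y] {q : ℕ} [Fact q.Prime] (θ : X →* Y)
    (h : Function.Injective θ) : Function.Injective (ind ℤ_[q] θ) :=
  (mapDomain_injective h).comp (map_injective (M := X) (Int.castRingHom ℤ_[q]).toAddMonoidHom
    Int.cast_injective)

variable [∀ n, Group.FG (G n)] [Fintype β] {ι : ∀ n, FreeGroup (α n) →* G n}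

lemma kill_of_dep (h : ∀ n, LP (ι n)) {d : FreeGroup β → β → MonoidAlgebra ℤ (FreeGroup β)}
    (hd : ∀ (Λ E : Type) [Ring Λ] [Group E] (κ : FreeGroup β →* E)
      (D : FreeGroup β → MonoidAlgebra Λ E), Der κ D →
      ∀ w, D w = ∑ a, ind Λ κ (d w a) * D (FreeGroup.of a))
    {n : I} {S : Set (FreeGroup β)} {K : Subgroup (G n)} [K.Normal] (hK : Adm p φ n S K) {m : ℕ}
    (t : Fin (m + 1) → FreeGroup β) (ht : ∀ i : Fin m, Kill p φ n S (t i.succ))
    (h1 : Ind ((Matrix.of fun i : Fin m => d (t i.succ)).map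
      (mapDomainRingHom ℤ (QuotientGroup.mk' (K.comap (φ n))))))
    (h2 : ¬ Ind ((Matrix.of fun i => d (t i)).map
      (mapDomainRingHom ℤ (QuotientGroup.mk' (K.comap (φ n))))))
    (E : Type) [Group E] [Finite E] (π : G n →* E) (D : G n → MonoidAlgebra ℤ_[p n] E)
    (hE : IsPGroup (p n) E) (hπ : Function.Surjective π) (hle : K ≤ π.ker) (hD : Der π D) :
    D (φ n (t 0)) = 0 := by
  unfold Ind at h2
  push Not at h2
  obtain ⟨a, ha, ha0⟩ := h2
  have ha' : ∀ j, ∑ i, a i * mapDomainRingHom ℤ (QuotientGroup.mk' (K.comap (φ n))) (d (t i) j) =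
    0 := congrFun ha
  have hδ : a 0 ≠ 0 := fun h0 => ha0 (by
    have h3 := h1 (fun i => a i.succ) (funext fun j => by
      have := ha' j
      rwa [Fin.sum_univ_succ, h0, zero_mul, zero_add] at this)
    funext i
    exact Fin.cases h0 (congrFun h3) i)
  let θ : FreeGroup β ⧸ K.comap (φ n) →* G n ⧸ K := QuotientGroup.map _ K (φ n) le_rfl
  have hθ : Function.Injective θ := (injective_iff_map_eq_one' θ).2 fun x => by
    obtain ⟨x, rfl⟩ := QuotientGroup.mk_surjective x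
    exact (QuotientGroup.eq_one_iff (φ n x)).trans
      (QuotientGroup.eq_one_iff (N := K.comap (φ n)) x).symm
  refine tf (h n) hK.1.vab (QuotientGroup.mk' K) _ (ind ℤ_[p n] θ (a 0))
    (fun h0 => hδ (ind_injective θ hθ (h0.trans (map_zero _).symm))) ?_ E
    (QuotientGroup.lift K π hle) D hE (fun e => ?_) hD
  · intro F _ _ ρ D' hF hρ hD'
    have h3 : ∀ x, mapDomainRingHom ℤ_[p n] ρ (ind ℤ_[p n] θ x) = ind ℤ_[p n] (ρ.comp θ) x :=
      fun x => by simp only [ind, mapDomainRingHom_comp, RingHom.comp_apply]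
    have h4 : ∑ i, ind ℤ_[p n] (ρ.comp θ) (a i) * D' (φ n (t i)) = 0 := by
      have h5 : ∀ i, D' (φ n (t i)) = ∑ j, ind ℤ_[p n] (ρ.comp θ) (mapDomainRingHom ℤ
          (QuotientGroup.mk' (K.comap (φ n))) (d (t i) j)) * D' (φ n (FreeGroup.of j)) := fun i => by
        simp only [ind_map]
        exact hd _ _ _ _ (hD'.comp (φ n)) (t i)
      simp only [h5, Finset.mul_sum, ← mul_assoc, ← map_mul]
      rw [Finset.sum_comm]
      simp only [← Finset.sum_mul, ← map_sum, ha', map_zero, zero_mul, Finset.sum_const_zero]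
    rw [Fin.sum_univ_succ, Finset.sum_eq_zero (fun i _ => by
      rw [ht i K hK F _ D' hF (hρ.comp (QuotientGroup.mk'_surjective K)) (fun x hx => by
        rw [MonoidHom.mem_ker, MonoidHom.comp_apply,
          show QuotientGroup.mk' K x = 1 from (QuotientGroup.eq_one_iff _).2 hx, map_one]) hD',
        mul_zero]), add_zero] at h4
    rw [h3, h4]
  · obtain ⟨g, rfl⟩ := hπ e
    exact ⟨g, rfl⟩

theorem uniform (h : ∀ n, LP (ι n)) {S : Set (FreeGroup β)} (hS : St p φ ω S ⊆ S) :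
    ∀ᶠ n in ω, ∀ g ∈ S, (∀ᶠ m in ω, Kill p φ m S g) → Kill p φ n S g := by
  obtain ⟨d, hd⟩ := exists_fox β
  let Q : ℕ → Prop := fun m => ∃ (t : Fin m → FreeGroup β) (N : Subgroup (FreeGroup β))
    (_ : N.Normal), (∀ i, t i ∈ S ∧ ∀ᶠ m in ω, Kill p φ m S (t i)) ∧ Good 0 N ∧ S ⊆ N ∧
      Ind ((Matrix.of fun i => d (t i)).map (mapDomainRingHom ℤ (QuotientGroup.mk' N)))
  obtain ⟨m, ⟨t, N, _, ht, hN, hSN, hI⟩, hm⟩ : ∃ m, Q m ∧ ¬ Q (m + 1) := by
    by_contra h0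
    push Not at h0
    have h1 : ∀ m, Q m := fun m => Nat.rec ⟨Fin.elim0, ⊤, inferInstance, fun i => i.elim0, .top 0,
      fun _ _ => trivial, fun _ _ => Subsingleton.elim _ _⟩ h0 m
    obtain ⟨t, N, _, -, hN, -, hI⟩ := h1 (Fintype.card β + 1)
    simpa using hN.vab.count _ hI
  obtain ⟨Φ, hΦ⟩ := stable (Matrix.of fun i => d (t i))
  filter_upwards [exists_small hS Φ, eventually_all.2 fun i => (ht i).2] with n ⟨L, hL, hLΦ⟩ htn
  intro g hg hgK K hK E _ _ π D hE hπ hle hD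
  have := hL.1.normal
  have := hK.1.normal
  have hL' := hL.1.comap (φ n)
  have h1 := hΦ _ _ (QuotientGroup.mk' (N ⊓ L.comap (φ n))) (QuotientGroup.mk' (L.comap (φ n)))
    (hN.inf hL').vab hL'.vab (fun x hx => (QuotientGroup.eq_one_iff _).trans
      (Iff.trans ⟨fun h => h.2, fun h => ⟨hSN (hLΦ x hx h), h⟩⟩ (QuotientGroup.eq_one_iff _).symm))
    ((hL'.tower.inf N).ind _ hI)
  have h2 := ((hK.1.comap (φ n)).tower.inf (L.comap (φ n))).ind _ h1
  refine kill_of_dep h hd (hL.inf hK) (Fin.cons g t) htn h2 (fun h3 => hm ⟨Fin.cons g t, _,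
    inferInstance, fun i => Fin.cases ⟨hg, hgK⟩ ht i, (hL.inf hK).1.comap (φ n),
    (hL.inf hK).2, h3⟩) E π D hE hπ (inf_le_right.trans hle) hD

theorem core (h : ∀ n, LP (ι n)) (R : Set (FreeGroup β)) (hR : ∀ r ∈ R, ∀ᶠ n in ω, φ n r = 1) :
    ∀ᶠ n in ω, ∀ (P : Type) [Group P] [Finite P] (f : G n →* P), IsPGroup (p n) P →
      Function.Surjective f → ∀ r ∈ R, f (φ n r) = 1 := by
  set S := ⋂₀ {T | R ⊆ T ∧ St p φ ω T ⊆ T} with hSdef
  have hmono : ∀ {T T' : Set (FreeGroup β)}, T ⊆ T' → St p φ ω T ⊆ St p φ ω T' :=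
    fun hT g hg => Eventually.mono hg fun n hn K hK => hn K ⟨hK.1, fun t ht => hK.2 t (hT ht)⟩
  have hRS : R ⊆ S := Set.subset_sInter fun T hT => hT.1
  have hS : St p φ ω S ⊆ S := Set.subset_sInter fun T hT =>
    (hmono (Set.sInter_subset_of_mem hT)).trans hT.2
  have hU := uniform h hS
  have hT : S ⊆ {g | g ∈ S ∧ ∀ᶠ m in ω, Kill p φ m S g} := by
    refine Set.sInter_subset_of_mem ⟨fun r hr => ⟨hRS hr, (hR r hr).mono
      fun n hn K _ E _ _ π D _ _ _ hD => by rw [hn, hD.one]⟩, fun g hg => ⟨hS (hmono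
        (fun _ h => h.1) hg), ?_⟩⟩
    filter_upwards [hU, hg] with n hn hgn K hK E _ _ π D hE hπ hle hD
    obtain ⟨K', hK', hm⟩ := hK.1.der hD hle hE
    exact ((hm _).1 (hgn K' ⟨hK', fun t ht => (hm _).2
      ⟨hK.2 t ht.1, hn t ht.1 ht.2 K hK E π D hE hπ hle hD⟩⟩)).2
  filter_upwards [hU] with n hn P _ _ f hP hf r hr
  obtain ⟨K, -, h1, h2⟩ := kill (h n) (φ n '' S) (by
    rintro K hK hSK E _ _ π D hE hπ hle hD _ ⟨g, hg, rfl⟩
    exact hn g hg (hT hg).2 K ⟨hK, fun t ht => hSK ⟨t, ht, rfl⟩⟩ E π D hE hπ hle hD) _ P f rfl hP hf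
  exact h2 (h1 ⟨r, hRS hr, rfl⟩)

end core

theorem noeth {X : Type*} [Group X] (hX : Group.FG X) (S : Set X) :
    ∃ S₀ ⊆ S, S₀.Finite ∧ ∀ (G : Type) [Group G], Group.FG G →
      (⨅ n, (⊤ : Subgroup G).lowerCentralSeries n) = ⊥ →
      (∃ r : ℕ, ∀ n, Nonempty ((G ⧸ (⊤ : Subgroup G).lowerCentralSeries n) ≃*
        (FreeGroup (Fin r) ⧸ (⊤ : Subgroup (FreeGroup (Fin r))).lowerCentralSeries n))) →
      ∀ f : X →* G, (∀ w ∈ S₀, f w = 1) → ∀ w ∈ S, f w = 1 := by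
  classical
  obtain ⟨β, _, Ψ, hΨ⟩ := Group.fg_iff_exists_freeGroup_hom_surjective_finite.1 hX
  have := Fintype.ofFinite β
  by_contra h0
  push Not at h0
  choose G _ hfg hG h f hf w hw hfw using fun n : Finset S => h0 (Subtype.val '' (n : Set S))
    (by rintro _ ⟨x, -, rfl⟩; exact x.2) (n.finite_toSet.image _)
  choose r hr using h
  choose ι hι using fun n => exists_lp (hr n)
  choose p hp P _ _ g hP hg hgw using fun n => res_p (hG n) (hfw n)
  have : ∀ n, Fact (p n).Prime := fun n => ⟨hp n⟩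
  obtain ⟨n, hn⟩ := (core (p := p) (φ := fun n => (f n).comp Ψ) (ω := Ultrafilter.of atTop) hι
    (Ψ ⁻¹' S) fun r hr => Ultrafilter.of_le _ ((eventually_ge_atTop
      ({⟨Ψ r, hr⟩} : Finset S)).mono fun n hn =>
        hf n _ ⟨⟨_, hr⟩, Finset.singleton_subset_iff.1 hn, rfl⟩)).exists
  obtain ⟨r, hr⟩ := hΨ (w n)
  exact hgw n (hr ▸ hn (P n) (g n) (hP n) (hg n) r (show Ψ r ∈ S from hr ▸ hw n))

theorem noeth' {X : Type*} [Group X] (hX : Group.FG X) (S : Set X) :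
    ∃ S₀ ⊆ S, S₀.Finite ∧ ∀ (G : Type*) [Group G], Group.FG G →
      (⨅ n, (⊤ : Subgroup G).lowerCentralSeries n) = ⊥ →
      (∃ r : ℕ, ∀ n, Nonempty ((G ⧸ (⊤ : Subgroup G).lowerCentralSeries n) ≃*
        (FreeGroup (Fin r) ⧸ (⊤ : Subgroup (FreeGroup (Fin r))).lowerCentralSeries n))) →
      ∀ f : X →* G, (∀ w ∈ S₀, f w = 1) → ∀ w ∈ S, f w = 1 := by
  obtain ⟨S₀, h1, h2, h3⟩ := noeth hX S
  refine ⟨S₀, h1, h2, fun G _ hfg hG ⟨r, h⟩ f hf w hw => ?_⟩
  obtain ⟨β, _, Ψ, hΨ⟩ := Group.fg_iff_exists_freeGroup_hom_surjective_finite.1 hfg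
  let e := QuotientGroup.quotientKerEquivOfSurjective Ψ hΨ
  have he : ∀ n, ((⊤ : Subgroup (FreeGroup β ⧸ Ψ.ker)).lowerCentralSeries n).map e.toMonoidHom =
      (⊤ : Subgroup G).lowerCentralSeries n := fun n => by
    rw [Subgroup.map_lowerCentralSeries,
      Subgroup.map_top_of_surjective e.toMonoidHom e.surjective]
  simpa using h3 (FreeGroup β ⧸ Ψ.ker) inferInstance (eq_bot_iff.2 fun x hx => by
      have : e x ∈ (⊥ : Subgroup G) := hG ▸ Subgroup.mem_iInf.2 fun n =>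
        he n ▸ Subgroup.mem_map_of_mem e.toMonoidHom (Subgroup.mem_iInf.1 hx n)
      simpa using this)
    ⟨r, fun n => (h n).map fun e' => (QuotientGroup.congr _ _ e (he n)).trans e'⟩
    (e.symm.toMonoidHom.comp f) (fun v hv => by simp [hf v hv]) w hw

end Pool.Agent.MP_26f8ef_al.H29
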