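import Pool.Agent.MP_26f8ef_al.H29.Strebel

/-! Nilpotent groups, Fox calculus and lifting of derivations on parafree groups. -/

namespace Pool.Agent.MP_26f8ef_al.H29

open MonoidAlgebra Subgroup

section nil

lemma fin_pgroup (p : ℕ) (hp : p ≠ 0) (Q : Type) [Group Q] [Group.IsNilpotent Q] :
    Group.FG Q → (∀ z ∈ center Q, ∃ a, z ^ p ^ a = 1) → Finite Q ∧ IsPGroup p Q := by
  refine Group.nilpotent_center_quotient_ind (P := fun Q _ _ => Group.FG Q →
    (∀ z ∈ center Q, ∃ a, z ^ p ^ a = 1) → Finite Q ∧ IsPGroup p Q) Q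
    (fun Q _ _ _ _ => ⟨inferInstance, .of_subsingleton p Q⟩) fun Q _ _ ih hfg hz => ?_
  obtain ⟨h1, h2⟩ := ih inferInstance (by
    intro y hy
    obtain ⟨y, rfl⟩ := QuotientGroup.mk_surjective y
    obtain ⟨S, hS⟩ := Group.fg_def.1 hfg
    have hc : ∀ s, y * s * y⁻¹ * s⁻¹ ∈ center Q := fun s => by
      rw [← QuotientGroup.eq_one_iff]
      simp [← mem_center_iff.1 hy s]
    have hn : ∀ s (n : ℕ), y ^ n * s = (y * s * y⁻¹ * s⁻¹) ^ n * (s * y ^ n) := fun s n => by
      induction n with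
      | zero => simp
      | succ n ih =>
        rw [pow_succ', mul_assoc, ih, ← mul_assoc, mem_center_iff.1 (pow_mem (hc s) n) y,
          pow_succ]
        group
    choose a ha using fun s => hz _ (hc s)
    refine ⟨S.sup a, ?_⟩
    rw [← QuotientGroup.mk_pow, QuotientGroup.eq_one_iff, mem_center_iff]
    intro g
    have hg : g ∈ closure (S : Set Q) := hS ▸ mem_top g
    refine mem_centralizer_singleton_iff.1 ((closure_le (centralizer _)).2 (fun s hs => ?_) hg)
    refine mem_centralizer_singleton_iff.2 ?_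
    obtain ⟨b, hb⟩ := Nat.exists_eq_add_of_le (Finset.le_sup (f := a) hs)
    rw [hn, hb, pow_add, pow_mul (y * s * y⁻¹ * s⁻¹), ha, one_pow, one_mul])
  have h3 : (center Q).FiniteIndex := finiteIndex_of_finite_quotient
  have h4 : Finite (center Q) := by
    let : CommGroup (center Q) := { (inferInstance : Group (center Q)) with
      mul_comm := fun a b => Subtype.ext (mem_center_iff.1 b.2 a) }
    refine CommGroup.finite_of_fg_isMulTorsion _ fun z => ?_
    obtain ⟨a, ha⟩ := hz z z.2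
    exact isOfFinOrder_iff_pow_eq_one.2 ⟨p ^ a, by positivity, Subtype.ext ha⟩
  refine ⟨(finite_iff_finite_and_finiteIndex (center Q)).2 ⟨h4, h3⟩, fun g => ?_⟩
  obtain ⟨k, hk⟩ := h2 g
  obtain ⟨l, hl⟩ := hz (g ^ p ^ k) ((QuotientGroup.eq_one_iff _).1 hk)
  exact ⟨k + l, by rw [pow_add, pow_mul, hl]⟩

lemma monolith {Q : Type} [Group Q] {x : Q} (hx : x ≠ 1)
    (h : ∀ z ∈ center Q, z ≠ 1 → x ∈ zpowers z) :
    ∃ p : ℕ, p.Prime ∧ ∀ z ∈ center Q, ∃ a, z ^ p ^ a = 1 := by
  by_cases hZ : ∃ z ∈ center Q, z ≠ 1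
  swap
  · push Not at hZ
    exact ⟨2, Nat.prime_two, fun z hz => ⟨0, by simp [hZ z hz]⟩⟩
  obtain ⟨z₀, hz₀, hz₁⟩ := hZ
  have hxZ : x ∈ center Q := (zpowers_le.2 hz₀) (h z₀ hz₀ hz₁)
  have hfin : IsOfFinOrder x := by
    by_cases h2 : x ^ 2 = 1
    · exact isOfFinOrder_iff_pow_eq_one.2 ⟨2, two_pos, h2⟩
    · obtain ⟨k, hk⟩ := mem_zpowers_iff.1 (h _ (pow_mem hxZ 2) h2)
      refine isOfFinOrder_iff_zpow_eq_one.2 ⟨2 * k - 1, by omega, ?_⟩
      rw [zpow_sub_one, zpow_mul, zpow_ofNat, hk, mul_inv_cancel]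
  obtain ⟨p, hp, hd⟩ := Nat.exists_prime_and_dvd (n := orderOf x) (by simpa using hx)
  refine ⟨p, hp, fun z hz => ?_⟩
  by_cases hz1 : z = 1
  · exact ⟨0, by simp [hz1]⟩
  have hzf : IsOfFinOrder z := by
    obtain ⟨k, hk⟩ := mem_zpowers_iff.1 (h z hz hz1)
    obtain ⟨l, hl, h1⟩ := isOfFinOrder_iff_zpow_eq_one.1 hfin
    refine isOfFinOrder_iff_zpow_eq_one.2 ⟨k * l, mul_ne_zero ?_ hl, by rw [zpow_mul, hk, h1]⟩
    rintro rfl
    exact hx (by simpa using hk.symm)
  obtain ⟨a, m, hm, he⟩ := Nat.exists_eq_pow_mul_and_not_dvd hzf.orderOf_pos.ne' p hp.ne_one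
  refine ⟨a, by_contra fun h1 => hm (hd.trans (orderOf_dvd_of_pow_eq_one ?_))⟩
  obtain ⟨k, hk⟩ := mem_zpowers_iff.1 (h _ (pow_mem hz _) h1)
  rw [← hk, ← zpow_natCast, ← zpow_mul, mul_comm, zpow_mul, zpow_natCast, ← pow_mul, ← he,
    pow_orderOf_eq_one, one_zpow]

lemma map_lcs {G P : Type} [Group G] [Group P] (f : G →* P) (n : ℕ) {x : G}
    (hx : x ∈ (⊤ : Subgroup G).lowerCentralSeries n) :
    f x ∈ (⊤ : Subgroup P).lowerCentralSeries n := by
  have : ((⊤ : Subgroup G).lowerCentralSeries n).map f ≤ (⊤ : Subgroup P).lowerCentralSeries n := by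
    rw [map_lowerCentralSeries]
    exact lowerCentralSeries_mono n le_top
  exact this (mem_map_of_mem f hx)

theorem res_p {G : Type} [Group G] [Group.FG G]
    (hG : (⨅ n, (⊤ : Subgroup G).lowerCentralSeries n) = ⊥) {g : G} (hg : g ≠ 1) :
    ∃ p : ℕ, p.Prime ∧ ∃ (P : Type) (_ : Group P) (_ : Finite P) (f : G →* P),
      IsPGroup p P ∧ Function.Surjective f ∧ f g ≠ 1 := by
  obtain ⟨n, hn⟩ : ∃ n, g ∉ (⊤ : Subgroup G).lowerCentralSeries n := by
    by_contra h
    push Not at h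
    exact hg (mem_bot.1 (hG ▸ mem_iInf.2 h))
  obtain ⟨M, hle, hM⟩ := zorn_le_nonempty₀ {M : Subgroup G | M.Normal ∧ g ∉ M}
    (fun c hc hch y hy => ⟨sSup c, ⟨sSup_normal c fun H hH => (hc hH).1, fun h => by
      obtain ⟨H, hH, h1⟩ := (mem_sSup_of_directedOn ⟨y, hy⟩ hch.directedOn).1 h
      exact (hc hH).2 h1⟩, fun z hz => le_sSup hz⟩) _ ⟨inferInstance, hn⟩
  have := hM.1.1
  have hs := QuotientGroup.mk'_surjective M
  have : Group.IsNilpotent (G ⧸ M) := Subgroup.nilpotent_iff_lowerCentralSeries.2 ⟨n, by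
    rw [← map_top_of_surjective _ hs, ← map_lowerCentralSeries,
      Subgroup.map_eq_bot_iff, QuotientGroup.ker_mk']
    exact hle⟩
  have h1 : (g : G ⧸ M) ≠ 1 := fun h => hM.1.2 ((QuotientGroup.eq_one_iff _).1 h)
  obtain ⟨p, hp, h2⟩ := monolith h1 fun z hz hz1 => by
    by_contra h3
    have hN : (zpowers z).Normal := ⟨fun a ha b => by
      rwa [mem_center_iff.1 (zpowers_le.2 hz ha) b, mul_inv_cancel_right]⟩
    obtain ⟨z, rfl⟩ := hs z
    refine hz1 ((QuotientGroup.eq_one_iff _).2 (hM.2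
      (y := (zpowers (QuotientGroup.mk' M z)).comap (QuotientGroup.mk' M)) ⟨inferInstance, h3⟩
      (fun a ha => ?_) (mem_zpowers _)))
    rw [mem_comap, show QuotientGroup.mk' M a = 1 from (QuotientGroup.eq_one_iff _).2 ha]
    exact one_mem _
  obtain ⟨h3, h4⟩ := fin_pgroup p hp.ne_zero (G ⧸ M) inferInstance h2
  exact ⟨p, hp, G ⧸ M, inferInstance, h3, QuotientGroup.mk' M, h4, hs, h1⟩

lemma hom_ext_nil {G : Type} [Group G] {H : Subgroup G} (hH : H ⊔ commutator G = ⊤)
    (P : Type) [Group P] [Group.IsNilpotent P] :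
    ∀ f f' : G →* P, (∀ g ∈ H, f g = f' g) → f = f' := by
  refine Group.nilpotent_center_quotient_ind (P := fun P _ _ => ∀ f f' : G →* P,
    (∀ g ∈ H, f g = f' g) → f = f') P
    (fun P _ _ f f' _ => MonoidHom.ext fun _ => Subsingleton.elim _ _)
    fun P _ _ ih f f' h => ?_
  have h1 := ih ((QuotientGroup.mk' _).comp f) ((QuotientGroup.mk' _).comp f')
    fun g hg => by simp [h g hg]
  have h2 : ∀ g, ∃ c ∈ center P, f' g = f g * c := fun g =>
    ⟨(f g)⁻¹ * f' g, QuotientGroup.eq.1 (DFunLike.congr_fun h1 g), by group⟩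
  have h3 : H ⊔ commutator G ≤ f.eqLocus f' := by
    refine sup_le h (commutator_le.2 fun a _ b _ => ?_)
    obtain ⟨c, hc, ha⟩ := h2 a
    obtain ⟨d, hd, hb⟩ := h2 b
    change f _ = f' _
    simp only [commutatorElement_def, map_mul, map_inv, ha, hb]
    have h4 := mem_center_iff.1 hc (f b * d)
    have h5 := mem_center_iff.1 hd (f a)⁻¹
    calc f a * f b * (f a)⁻¹ * (f b)⁻¹ = f a * f b * ((f a)⁻¹ * d) * (f b * d)⁻¹ := by group
      _ = f a * (f b * d * c) * (f a * c)⁻¹ * (f b * d)⁻¹ := by rw [h5]; group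
      _ = _ := by rw [h4]; group
  ext g
  exact h3 (hH ▸ mem_top g)

/-- Homomorphisms to finite nilpotent groups are freely determined on the marked elements. -/
def LP {G α : Type} [Group G] (ι : FreeGroup α →* G) : Prop :=
  ∀ (P : Type) [Group P] [Finite P] [Group.IsNilpotent P],
    Function.Bijective fun f : G →* P => f.comp ι

theorem exists_lp {G α : Type} [Group G] [Finite α]
    (h : ∀ n, Nonempty ((G ⧸ (⊤ : Subgroup G).lowerCentralSeries n) ≃*
      (FreeGroup α ⧸ (⊤ : Subgroup (FreeGroup α)).lowerCentralSeries n))) :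
    ∃ ι : FreeGroup α →* G, LP ι := by
  obtain ⟨e₁⟩ := h 1
  let ι : FreeGroup α →* G := FreeGroup.lift fun a => (e₁.symm (FreeGroup.of a)).out
  have h1 : (QuotientGroup.mk' _).comp ι = e₁.symm.toMonoidHom.comp (QuotientGroup.mk' _) := by
    ext a
    exact (congrArg QuotientGroup.mk FreeGroup.lift_apply_of).trans (QuotientGroup.out_eq' _)
  have h2 : ι.range ⊔ commutator G = ⊤ := by
    refine eq_top_iff.2 fun g _ => ?_
    obtain ⟨w, hw⟩ := QuotientGroup.mk_surjective (e₁ g)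
    have h3 : ((ι w : G) : G ⧸ (⊤ : Subgroup G).lowerCentralSeries 1) = g := by
      refine (DFunLike.congr_fun h1 w).trans ?_
      exact (congrArg e₁.symm hw).trans (e₁.symm_apply_apply _)
    have h4 := mul_mem (mem_sup_left (⟨w, rfl⟩ : ι w ∈ ι.range))
      (mem_sup_right (S := ι.range) (T := commutator G) (QuotientGroup.eq.1 h3))
    simpa using h4
  refine ⟨ι, fun P _ _ _ => ?_⟩
  have hinj : Function.Injective fun f : G →* P => f.comp ι := fun f f' hf =>
    hom_ext_nil h2 P f f' (by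
      rintro _ ⟨w, rfl⟩
      exact DFunLike.congr_fun hf w)
  refine ⟨hinj, ?_⟩
  obtain ⟨n, hn⟩ :=
    Subgroup.nilpotent_iff_lowerCentralSeries.1 (inferInstance : Group.IsNilpotent P)
  obtain ⟨e⟩ := h n
  let s : (FreeGroup α →* P) → (G →* P) := fun f =>
    ((QuotientGroup.lift _ f fun x hx => mem_bot.1 (hn ▸ map_lcs f n hx)).comp
      e.toMonoidHom).comp (QuotientGroup.mk' _)
  have hs : Function.Injective s := fun f f' hf => by
    ext a
    obtain ⟨g, hg⟩ := QuotientGroup.mk_surjective (e.symm (FreeGroup.of a))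
    have := DFunLike.congr_fun hf g
    simp [s, hg] at this
    exact this
  have : Finite (FreeGroup α →* P) := Finite.of_equiv _ FreeGroup.lift
  exact (Finite.surjective_of_injective (hinj.comp hs)).of_comp

end nil

/-- The affine group of a group ring. -/
structure Aff (Λ E : Type) [Ring Λ] where
  m : MonoidAlgebra Λ E
  e : E

section aff
variable {Λ E G : Type} [Ring Λ] [Group E] [Group G]

omit [Group E] in
lemma Aff.ext' {a b : Aff Λ E} (h1 : a.m = b.m) (h2 : a.e = b.e) : a = b := by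
  cases a; cases b; simp_all

noncomputable instance : Group (Aff Λ E) where
  mul a b := ⟨a.m + single a.e 1 * b.m, a.e * b.e⟩
  one := ⟨0, 1⟩
  inv a := ⟨-(single a.e⁻¹ 1 * a.m), a.e⁻¹⟩
  mul_assoc a b c := Aff.ext' (by
    change a.m + single a.e 1 * b.m + single (a.e * b.e) 1 * c.m =
      a.m + single a.e 1 * (b.m + single b.e 1 * c.m)
    rw [mul_add, ← mul_assoc, single_mul_single, mul_one, add_assoc]) (mul_assoc _ _ _)
  one_mul a := Aff.ext' (by
    change 0 + single 1 1 * a.m = a.m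
    rw [← one_def, one_mul, zero_add]) (one_mul _)
  mul_one a := Aff.ext' (by
    change a.m + single a.e 1 * 0 = a.m
    rw [mul_zero, add_zero]) (mul_one _)
  inv_mul_cancel a := Aff.ext' (neg_add_cancel _) (inv_mul_cancel _)

/-- The linear part. -/
noncomputable def Aff.snd : Aff Λ E →* E where
  toFun := Aff.e
  map_one' := rfl
  map_mul' _ _ := rfl

/-- The homomorphism defined by a derivation. -/
noncomputable def Der.hom {π : G →* E} {D : G → MonoidAlgebra Λ E} (hD : Der π D) :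
    G →* Aff Λ E where
  toFun g := ⟨D g, π g⟩
  map_one' := Aff.ext' hD.one (map_one π)
  map_mul' g h := Aff.ext' (hD g h) (map_mul π g h)

lemma der_of_hom (f : G →* Aff Λ E) : Der (Aff.snd.comp f) fun g => (f g).m :=
  fun g h => congrArg Aff.m (map_mul f g h)

omit [Group E] in
lemma aff_finite [Finite Λ] [Finite E] : Finite (Aff Λ E) :=
  Finite.of_injective (fun a : Aff Λ E => ((a.m.coeff : E → Λ), a.e)) fun _ _ h =>
    Aff.ext' (coeff_injective (DFunLike.coe_injective (congrArg Prod.fst h))) (congrArg Prod.snd h)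

lemma aff_pgroup {p j : ℕ} (hΛ : ((p ^ j : ℕ) : Λ) = 0) (hE : IsPGroup p E) :
    IsPGroup p (Aff Λ E) := fun a => by
  obtain ⟨k, hk⟩ := hE a.e
  have h1 : Aff.snd.comp (MonoidHom.id (Aff Λ E)) (a ^ p ^ k) = 1 := by rw [map_pow]; exact hk
  refine ⟨k + j, ?_⟩
  rw [pow_add, pow_mul]
  refine Aff.ext' (((der_of_hom (MonoidHom.id (Aff Λ E))).pow_ker h1 _).trans ?_) ?_
  · ext e
    change (p ^ j) • ((a ^ p ^ k).m.coeff e) = 0
    rw [nsmul_eq_mul, hΛ, zero_mul]
  · change Aff.snd.comp (MonoidHom.id (Aff Λ E)) ((a ^ p ^ k) ^ p ^ j) = 1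
    rw [map_pow, h1, one_pow]

lemma Der.comp {π : G →* E} {D : G → MonoidAlgebra Λ E} (hD : Der π D) {X : Type} [Group X]
    (φ : X →* G) : Der (π.comp φ) fun x => D (φ x) := fun g h => by
  simp only [map_mul, hD _ _, MonoidHom.comp_apply]

lemma Der.map {π : G →* E} {D : G → MonoidAlgebra Λ E} (hD : Der π D) {Λ' E' : Type} [Ring Λ']
    [Group E'] {π' : G →* E'} (ρ : MonoidAlgebra Λ E →+* MonoidAlgebra Λ' E')
    (hρ : ∀ g, ρ (single (π g) 1) = single (π' g) 1) : Der π' fun g => ρ (D g) := fun g h => by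
  simp only [hD _ _, map_add, map_mul, hρ]

variable {α : Type}

lemma exists_der_free (π : FreeGroup α →* E) (b : α → MonoidAlgebra Λ E) :
    ∃ D, Der π D ∧ ∀ a, D (FreeGroup.of a) = b a := by
  let f : FreeGroup α →* Aff Λ E := FreeGroup.lift fun a => ⟨b a, π (FreeGroup.of a)⟩
  have h : Aff.snd.comp f = π := by
    ext a
    exact congrArg Aff.e FreeGroup.lift_apply_of
  exact ⟨_, h ▸ der_of_hom f, fun a => congrArg Aff.m FreeGroup.lift_apply_of⟩

/-- The ring homomorphism induced by a group homomorphism, with change of coefficients. -/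
noncomputable def ind (Λ : Type) [Ring Λ] (f : G →* E) : MonoidAlgebra ℤ G →+* MonoidAlgebra Λ E :=
  (mapDomainRingHom Λ f).comp (mapRingHom G (Int.castRingHom Λ))

lemma ind_single (f : G →* E) (g : G) : ind Λ f (single g 1) = single (f g) 1 := by simp [ind]

lemma ind_map (f : G →* E) {X : Type} [Group X] (φ : X →* G) (x : MonoidAlgebra ℤ X) :
    ind Λ f (mapDomainRingHom ℤ φ x) = ind Λ (f.comp φ) x := by
  have : (ind Λ f).comp (mapDomainRingHom ℤ φ) = ind Λ (f.comp φ) :=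
    MonoidAlgebra.ringHom_ext (fun r => by simp [ind]) fun g => by simp [ind]
  exact DFunLike.congr_fun this x

lemma exists_fox (α : Type) [Fintype α] :
    ∃ d : FreeGroup α → α → MonoidAlgebra ℤ (FreeGroup α), ∀ (Λ E : Type) [Ring Λ] [Group E]
      (κ : FreeGroup α →* E) (D : FreeGroup α → MonoidAlgebra Λ E), Der κ D →
      ∀ w, D w = ∑ a, ind Λ κ (d w a) * D (FreeGroup.of a) := by
  classical
  choose d hd hd' using fun a : α => exists_der_free (Λ := ℤ) (MonoidHom.id (FreeGroup α))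
    fun b => if a = b then 1 else 0
  refine ⟨fun w a => d a w, fun Λ E _ _ κ D hD w => ?_⟩
  have h : Der κ fun w => ∑ a, ind Λ κ (d a w) * D (FreeGroup.of a) := fun g h => by
    simp only [hd _ g h, map_add, map_mul, add_mul, Finset.sum_add_distrib, MonoidHom.id_apply,
      ind_single, mul_assoc, Finset.mul_sum]
  have h2 : hD.hom = h.hom := by
    ext a
    refine Aff.ext' ?_ rfl
    change D _ = ∑ b, ind Λ κ (d b _) * D (FreeGroup.of b)
    simp [hd', apply_ite (ind Λ κ)]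
  exact congrArg Aff.m (DFunLike.congr_fun h2 w)

variable {ι : FreeGroup α →* G} {p : ℕ} [Fact p.Prime] [Finite E] {π : G →* E}

lemma LP.uniq (h : LP ι) [Finite Λ] {j : ℕ} (hΛ : ((p ^ j : ℕ) : Λ) = 0) (hE : IsPGroup p E)
    {D D' : G → MonoidAlgebra Λ E} (hD : Der π D) (hD' : Der π D')
    (he : ∀ a, D (ι (FreeGroup.of a)) = D' (ι (FreeGroup.of a))) : D = D' := by
  have := aff_finite (Λ := Λ) (E := E)
  have := (aff_pgroup hΛ hE).isNilpotent
  have h1 : hD.hom = hD'.hom := (h (Aff Λ E)).1 (FreeGroup.ext_hom _ _ fun a => Aff.ext' (he a) rfl)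
  exact funext fun g => congrArg Aff.m (DFunLike.congr_fun h1 g)

lemma LP.ex (h : LP ι) [Finite Λ] {j : ℕ} (hΛ : ((p ^ j : ℕ) : Λ) = 0) (hE : IsPGroup p E)
    (π : G →* E) (b : α → MonoidAlgebra Λ E) :
    ∃ D, Der π D ∧ ∀ a, D (ι (FreeGroup.of a)) = b a := by
  have := aff_finite (Λ := Λ) (E := E)
  have := (aff_pgroup hΛ hE).isNilpotent
  have := hE.isNilpotent
  obtain ⟨f, hf⟩ := (h (Aff Λ E)).2 (FreeGroup.lift fun a => ⟨b a, π (ι (FreeGroup.of a))⟩)
  have h1 : ∀ a, f (ι (FreeGroup.of a)) = ⟨b a, π (ι (FreeGroup.of a))⟩ := fun a =>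
    (DFunLike.congr_fun hf _).trans FreeGroup.lift_apply_of
  have h2 : Aff.snd.comp f = π := (h E).1 (FreeGroup.ext_hom _ _ fun a => congrArg Aff.e (h1 a))
  exact ⟨_, h2 ▸ der_of_hom f, fun a => congrArg Aff.m (h1 a)⟩

lemma padic_lim (x : ∀ j, ZMod (p ^ j))
    (hx : ∀ i j (h : i ≤ j), ZMod.castHom (pow_dvd_pow p h) (ZMod (p ^ i)) (x j) = x i) :
    ∃ z : ℤ_[p], ∀ j, PadicInt.toZModPow j z = x j := by
  let R : Subring (∀ j, ZMod (p ^ j)) := ⨅ (i) (j) (h : i ≤ j), RingHom.eqLocus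
    ((ZMod.castHom (pow_dvd_pow p h) (ZMod (p ^ i))).comp (Pi.evalRingHom _ j)) (Pi.evalRingHom _ i)
  have hR : ∀ y, y ∈ R ↔ ∀ i j (h : i ≤ j),
      ZMod.castHom (pow_dvd_pow p h) (ZMod (p ^ i)) (y j) = y i := fun y => by
    simp only [R, Subring.mem_iInf]
    rfl
  have hc : ∀ i j (h : i ≤ j), (ZMod.castHom (pow_dvd_pow p h) _).comp
      ((Pi.evalRingHom _ j).comp R.subtype) = (Pi.evalRingHom _ i).comp R.subtype :=
    fun i j h => RingHom.ext fun y => (hR _).1 y.2 i j h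
  exact ⟨PadicInt.lift hc ⟨x, (hR x).2 hx⟩, fun j => DFunLike.congr_fun (PadicInt.lift_spec hc j) _⟩

omit [Finite E] in
lemma padic_ext {x y : MonoidAlgebra ℤ_[p] E}
    (h : ∀ j, mapRingHom E (PadicInt.toZModPow j) x = mapRingHom E (PadicInt.toZModPow j) y) :
    x = y := by
  ext e
  exact PadicInt.ext_of_toZModPow.1 fun j => by simpa using congrArg (fun z => z.coeff e) (h j)

lemma LP.exp (h : LP ι) (hE : IsPGroup p E) (π : G →* E) (b : α → MonoidAlgebra ℤ_[p] E) :
    ∃ D, Der π D ∧ ∀ a, D (ι (FreeGroup.of a)) = b a := by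
  choose D hD hD' using fun j => h.ex (ZMod.natCast_self (p ^ j)) hE π
    fun a => mapRingHom E (PadicInt.toZModPow j) (b a)
  have hc : ∀ i j (hij : i ≤ j), (fun g => mapRingHom E
      (ZMod.castHom (pow_dvd_pow p hij) (ZMod (p ^ i))) (D j g)) = D i := fun i j hij =>
    h.uniq (ZMod.natCast_self (p ^ i)) hE
      ((hD j).map _ fun g => by rw [mapRingHom_single, map_one]) (hD i) fun a => by
      rw [hD', hD', ← RingHom.comp_apply, ← mapRingHom_comp,
        PadicInt.zmod_cast_comp_toZModPow _ _ hij]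
  choose z hz using fun g e => padic_lim (fun j => (D j g).coeff e) fun i j hij => by
    rw [← hc i j hij, coeff_mapRingHom]
  have h1 : ∀ j g, mapRingHom E (PadicInt.toZModPow j)
      (ofCoeff (Finsupp.equivFunOnFinite.symm (z g))) = D j g := fun j g => by
    ext e
    simp [hz]
  refine ⟨fun g => ofCoeff (Finsupp.equivFunOnFinite.symm (z g)), fun g g' => padic_ext fun j => ?_,
    fun a => padic_ext fun j => by rw [h1, hD']⟩
  rw [map_add, map_mul, h1, h1, h1, hD j, mapRingHom_single, map_one]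

lemma LP.red (h : LP ι) (hE : IsPGroup p E) {D : G → MonoidAlgebra (ZMod p) E} (hD : Der π D) :
    ∃ D' : G → MonoidAlgebra ℤ_[p] E, Der π D' ∧
      ∀ g, mapRingHom E PadicInt.toZMod (D' g) = D g := by
  choose b hb using fun a => map_surjective (M := E) (PadicInt.toZMod (p := p)).toAddMonoidHom
    (ZMod.ringHom_surjective _) (D (ι (FreeGroup.of a)))
  obtain ⟨D', h1, h2⟩ := h.exp hE π b
  exact ⟨D', h1, congrFun (h.uniq (j := 1) (by simp) hE (h1.map _ fun g => by simp) hD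
    fun a => by rw [h2]; exact hb a)⟩

lemma LP.dom (h : LP ι) {E' : Type} [Group E'] [Finite E'] (hE : IsPGroup p E)
    (σ : E →* E') (hσ : Function.Surjective σ) {D : G → MonoidAlgebra ℤ_[p] E'}
    (hD : Der (σ.comp π) D) : ∃ D' : G → MonoidAlgebra ℤ_[p] E, Der π D' ∧
      ∀ g, mapDomainRingHom ℤ_[p] σ (D' g) = D g := by
  choose b hb using fun a => Finsupp.mapDomain_surjective hσ (D (ι (FreeGroup.of a))).coeff
  obtain ⟨D', h1, h2⟩ := h.exp hE π fun a => ofCoeff (b a)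
  have h3 : Der (σ.comp π) fun g => mapDomainRingHom ℤ_[p] σ (D' g) := h1.map _ fun g => by simp
  refine ⟨D', h1, fun g => padic_ext fun j => congrFun (h.uniq (ZMod.natCast_self (p ^ j))
    (hE.of_surjective σ hσ) (π := σ.comp π) (h3.map _ fun g => by simp)
    (hD.map _ fun g => by simp) fun a => ?_) g⟩
  rw [h2]
  congr 1
  exact coeff_injective (hb a)

end aff

end Pool.Agent.MP_26f8ef_al.H29
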