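import Mathlib

/-! Towers with torsion-free abelian factors: unique products and lifting of independence. -/

namespace Pool.Agent.MP_26f8ef_al.H29

open Matrix MonoidAlgebra

lemma up_comm (K : Type) [CommGroup K] (htf : ∀ (a : K) (n : ℕ), n ≠ 0 → a ^ n = 1 → a = 1) :
    UniqueProds K := by
  have h : Function.Injective (TensorProduct.mk ℤ ℚ (Additive K) 1) := by
    rw [injective_iff_map_eq_zero]
    intro a ha
    obtain ⟨⟨s, hs⟩, h⟩ := (IsLocalizedModule.eq_zero_iff (nonZeroDivisors ℤ) _).1 ha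
    have hs0 : s ≠ 0 := nonZeroDivisors.ne_zero hs
    have h1 : a.toMul ^ s = 1 := congrArg Additive.toMul h
    have h2 : a.toMul ^ s.natAbs = 1 := by
      rcases Int.natAbs_eq s with h3 | h3
      · rw [h3] at h1; exact_mod_cast h1
      · rw [h3, _root_.zpow_neg, inv_eq_one] at h1; exact_mod_cast h1
    exact htf _ _ (Int.natAbs_ne_zero.2 hs0) h2
  have : TwoUniqueSums (Additive K) :=
    TwoUniqueSums.of_injective_addHom (TensorProduct.mk ℤ ℚ (Additive K) 1).toAddHom h
      inferInstance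
  exact (inferInstance : UniqueProds (Multiplicative (Additive K)))

section step
variable {K H₁ H₂ : Type} [CommGroup K] [Group H₁] [Group H₂] (i : K →* H₁) (q : H₁ →* H₂)

lemma up_step [UniqueProds K] [UniqueProds H₂] (hi : Function.Injective i)
    (hq : ∀ h, q h = 1 ↔ ∃ k, i k = h) : UniqueProds H₁ where
  uniqueMul_of_nonempty {A B} hA hB := by
    classical
    obtain ⟨a', ha', b', hb', hu⟩ :=
      UniqueProds.uniqueMul_of_nonempty (hA.image q) (hB.image q)
    obtain ⟨a₀, ha₀, rfl⟩ := Finset.mem_image.1 ha'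
    obtain ⟨b₀, hb₀, rfl⟩ := Finset.mem_image.1 hb'
    have hf : Function.Injective fun k => i k * a₀ := fun _ _ h => hi (mul_right_cancel h)
    have hg : Function.Injective fun k => a₀⁻¹ * i k * a₀ * b₀ := fun _ _ h =>
      hi (mul_left_cancel (mul_right_cancel (mul_right_cancel h)))
    obtain ⟨k, hk, l, hl, hv⟩ := UniqueProds.uniqueMul_of_nonempty
      (A := A.preimage _ hf.injOn) (B := B.preimage _ hg.injOn) ⟨1, by simpa using ha₀⟩
      ⟨1, by simpa using hb₀⟩
    rw [Finset.mem_preimage] at hk hl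
    refine ⟨_, hk, _, hl, fun a b ha hb he => ?_⟩
    have hqi : ∀ k, q (i k) = 1 := fun k => (hq _).2 ⟨k, rfl⟩
    obtain ⟨h1, h2⟩ := hu (Finset.mem_image_of_mem q ha) (Finset.mem_image_of_mem q hb)
      (by simpa [hqi] using congrArg q he)
    obtain ⟨k', hk'⟩ := (hq (a * a₀⁻¹)).1 (by simp [h1])
    obtain ⟨l', hl'⟩ := (hq (a₀ * b * b₀⁻¹ * a₀⁻¹)).1 (by simp [h2])
    have ea : a = i k' * a₀ := by rw [hk']; group
    have eb : b = a₀⁻¹ * i l' * a₀ * b₀ := by rw [hl']; group
    obtain ⟨rfl, rfl⟩ := hv (a := k') (b := l') (by rwa [Finset.mem_preimage, ← ea])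
      (by rwa [Finset.mem_preimage, ← eb]) (hi (by
        rw [ea, eb] at he
        rw [map_mul, map_mul]
        calc i k' * i l' = i k' * a₀ * (a₀⁻¹ * i l' * a₀ * b₀) * (a₀ * b₀)⁻¹ := by group
          _ = _ := by rw [he]; group))
    exact ⟨ea, eb⟩

lemma gram {R m n : Type} [CommRing R] [IsDomain R] [Fintype m] [Fintype n] (ε : R →+* ℤ)
    (W : Matrix m n R) (h : ∀ β, β ᵥ* W.map ε = 0 → β = 0) (α : m → R) (hα : α ᵥ* W = 0) :
    α = 0 := by
  classical
  have h1 : (W.map ε * (W.map ε)ᵀ).det ≠ 0 := by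
    intro h0
    obtain ⟨β, hβ, h2⟩ := Matrix.exists_vecMul_eq_zero_iff.2 h0
    refine hβ (h β ?_)
    rw [← dotProduct_self_eq_zero]
    have := congrArg (· ⬝ᵥ β) h2
    simp only [zero_dotProduct] at this
    rwa [← Matrix.vecMul_vecMul, Matrix.vecMul_transpose, dotProduct_comm,
      Matrix.dotProduct_mulVec] at this
  have h2 : (W * Wᵀ).det ≠ 0 := by
    intro h0
    apply h1
    rw [← Matrix.transpose_map, ← Matrix.map_mul, ← RingHom.mapMatrix_apply, ← RingHom.map_det,
      h0, map_zero]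
  exact Matrix.eq_zero_of_vecMul_eq_zero h2 (by rw [← Matrix.vecMul_vecMul, hα, zero_vecMul])

/-- Left linear independence of the rows over the integral group ring. -/
def Ind {H ι J : Type} [Group H] [Fintype ι] (v : Matrix ι J (MonoidAlgebra ℤ H)) : Prop :=
  ∀ a : ι → MonoidAlgebra ℤ H, a ᵥ* v = 0 → a = 0

lemma ind_step [UniqueProds K] (hi : Function.Injective i) (hq : ∀ h, q h = 1 ↔ ∃ k, i k = h)
    {ι J : Type} [Fintype ι] [Fintype J] (v : Matrix ι J (MonoidAlgebra ℤ H₁))
    (hv : Ind (v.map (mapDomainRingHom ℤ q))) : Ind v := by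
  classical
  intro a ha
  have hqi : ∀ k, q (i k) = 1 := fun k => (hq _).2 ⟨k, rfl⟩
  let τ : H₂ → H₁ := Function.invFun q
  have hτ : ∀ h, q (τ (q h)) = q h := fun h => Function.invFun_eq ⟨h, rfl⟩
  have hinj : ∀ c, Function.Injective fun k => i k * τ c := fun c _ _ h => hi (mul_right_cancel h)
  let co : H₂ → MonoidAlgebra ℤ H₁ →+ MonoidAlgebra ℤ K := fun c =>
    comapDomainAddMonoidHom _ (hinj c)
  have hco : ∀ c x k, (co c x).coeff k = x.coeff (i k * τ c) := fun c x k => rfl
  have c1 : ∀ c r x, co c (mapDomainRingHom ℤ i r * x) = r * co c x := by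
    intro c r x
    induction r using MonoidAlgebra.induction_linear with
    | zero => simp
    | add r s hr hs => simp only [map_add, add_mul, hr, hs]
    | single k s =>
      ext k'
      simp only [hco, mapDomainRingHom_apply, mapDomain_single, coeff_single_mul_apply, map_mul,
        map_inv, mul_assoc]
  let ε : MonoidAlgebra ℤ K →+* ℤ := (MonoidAlgebra.lift ℤ ℤ K 1).toRingHom
  have c2 : ∀ h x, ε (co (q h) x) = (mapDomainRingHom ℤ q x).coeff (q h) := by
    intro h x
    induction x using MonoidAlgebra.induction_linear with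
    | zero => simp
    | add r s hr hs => simp only [map_add, hr, hs, coeff_add, Finsupp.add_apply]
    | single g s =>
      by_cases hg : q g = q h
      · obtain ⟨k, hk⟩ := (hq (g * (τ (q h))⁻¹)).1 (by simp [hg, hτ])
        have h1 : g = i k * τ (q h) := by rw [hk]; group
        have h2 : co (q h) (single g s) = single k s := by
          rw [h1]
          exact comapDomain_single_map _ (hinj _) k s
        simp [h2, ε, hg]
      · have h2 : co (q h) (single g s) = 0 := by
          refine comapDomain_single_of_not_mem_range ?_ (hinj _)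
          rintro ⟨k, rfl⟩
          simp [hqi, hτ] at hg
        simp [h2, hg]
  set X : Finset H₂ := (Finset.univ.biUnion fun j => (a j).coeff.support).image q with hX
  have c3 : ∀ j, a j = ∑ c : X, mapDomainRingHom ℤ i (co c (a j)) * single (τ c) 1 := by
    intro j
    ext h
    have h1 : ∀ c : X, (mapDomainRingHom ℤ i (co c (a j)) * single (τ c) 1).coeff h =
        if (c : H₂) = q h then (a j).coeff h else 0 := by
      rintro ⟨c, hc⟩
      obtain ⟨g, -, rfl⟩ := Finset.mem_image.1 hc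
      simp only [coeff_mul_single_apply, mul_one, mapDomainRingHom_apply, coeff_mapDomain]
      split_ifs with hg
      · obtain ⟨k, hk⟩ := (hq (h * (τ (q g))⁻¹)).1 (by simp [hg, hτ])
        rw [← hk, Finsupp.mapDomain_apply hi, hco, hk]
        simp
      · refine Finsupp.mapDomain_of_notMem_range _ _ ?_
        rintro ⟨k, hk⟩
        have := congrArg q hk
        simp only [hqi, map_mul, map_inv, hτ] at this
        exact hg (mul_inv_eq_one.1 this.symm).symm
    simp only [coeff_sum, Finsupp.finsetSum_apply, h1]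
    rw [Finset.sum_coe_sort X (fun c => if c = q h then (a j).coeff h else 0), Finset.sum_ite_eq']
    split_ifs with hh
    · rfl
    · by_contra h0
      exact hh (Finset.mem_image_of_mem q (Finset.mem_biUnion.2
        ⟨j, Finset.mem_univ _, Finsupp.mem_support_iff.2 h0⟩))
  set Y : Finset H₂ := (Finset.univ.biUnion fun t : ι × X × J =>
    (single (τ t.2.1) 1 * v t.1 t.2.2).coeff.support).image q with hY
  let W : Matrix (ι × X) (J × Y) (MonoidAlgebra ℤ K) :=
    Matrix.of fun s t => co t.2 (single (τ s.2) 1 * v s.1 t.1)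
  have key := gram ε W ?_ (fun s => co s.2 (a s.1)) ?_
  · funext j
    rw [c3 j]
    refine Finset.sum_eq_zero fun c _ => ?_
    have : co c (a j) = 0 := congrFun key (j, c)
    simp [this]
  · intro β hβ
    have hτX : ∀ c : X, q (τ c) = c := by
      rintro ⟨c, hc⟩
      obtain ⟨g, -, rfl⟩ := Finset.mem_image.1 hc
      exact hτ g
    have h1 := hv (fun j => ∑ c : X, single (c : H₂) (β (j, c))) (by
      funext l
      ext c'
      have h2 : ∀ j (c : X), (single (c : H₂) (β (j, c)) * mapDomainRingHom ℤ q (v j l)).coeff c' =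
          β (j, c) * (mapDomainRingHom ℤ q (single (τ c) 1 * v j l)).coeff c' := by
        intro j c
        simp only [map_mul, mapDomainRingHom_apply, mapDomain_single, hτX, coeff_single_mul_apply,
          one_mul]
      simp only [Matrix.vecMul, dotProduct, Matrix.map_apply, Finset.sum_mul, coeff_sum,
        Finsupp.finsetSum_apply, h2, Pi.zero_apply, coeff_zero, Finsupp.zero_apply]
      by_cases hc' : c' ∈ Y
      · have h3 := congrFun hβ (l, ⟨c', hc'⟩)
        obtain ⟨g, -, rfl⟩ := Finset.mem_image.1 hc'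
        simpa only [Matrix.vecMul, dotProduct, Matrix.map_apply, W, Matrix.of_apply, c2,
          Fintype.sum_prod_type, Pi.zero_apply] using h3
      · refine Finset.sum_eq_zero fun j _ => Finset.sum_eq_zero fun c _ => ?_
        refine mul_eq_zero_of_right _ (Finsupp.notMem_support_iff.1 fun h4 => hc' ?_)
        obtain ⟨g, hg, rfl⟩ := Finset.mem_image.1 (Finsupp.mapDomain_support h4)
        exact Finset.mem_image_of_mem q (Finset.mem_biUnion.2 ⟨(j, c, l), Finset.mem_univ _, hg⟩))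
    funext ⟨j, c⟩
    have h2 := congrArg (fun x => x.coeff (c : H₂)) (congrFun h1 j)
    simpa [coeff_sum, Finsupp.finsetSum_apply, Finsupp.single_apply, Subtype.val_inj] using h2
  · funext ⟨l, c'⟩
    have h1 := congrArg (co c') (congrFun ha l)
    simp only [Matrix.vecMul, dotProduct, Pi.zero_apply, map_zero, map_sum] at h1
    simp only [Matrix.vecMul, dotProduct, Pi.zero_apply, W, Matrix.of_apply, Fintype.sum_prod_type,
      ← c1, ← map_sum, ← mul_assoc, ← Finset.sum_mul, ← c3]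
    rw [map_sum, h1]

end step

section tower
variable {X Y : Type} [Group X] [Group Y]

/-- Descending chains of normal subgroups with torsion-free abelian factors. -/
inductive Tower (K₀ : Subgroup X) : Subgroup X → Prop
  | refl : Tower K₀ K₀
  | step {K K' : Subgroup X} : Tower K₀ K → K.Normal → K'.Normal → K' ≤ K →
      (∀ a ∈ K, ∀ b ∈ K, a * b * a⁻¹ * b⁻¹ ∈ K') →
      (∀ a ∈ K, ∀ n : ℕ, n ≠ 0 → a ^ n ∈ K' → a ∈ K') → Tower K₀ K'

lemma step_data {K K' : Subgroup X} [K.Normal] [K'.Normal] (hle : K' ≤ K)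
    (hc : ∀ a ∈ K, ∀ b ∈ K, a * b * a⁻¹ * b⁻¹ ∈ K')
    (ht : ∀ a ∈ K, ∀ n : ℕ, n ≠ 0 → a ^ n ∈ K' → a ∈ K') :
    ∃ (A : Type) (_ : CommGroup A) (i : A →* X ⧸ K') (q : X ⧸ K' →* X ⧸ K), UniqueProds A ∧
      Function.Injective i ∧ (∀ h, q h = 1 ↔ ∃ k, i k = h) ∧
      q.comp (QuotientGroup.mk' K') = QuotientGroup.mk' K := by
  let q : X ⧸ K' →* X ⧸ K := QuotientGroup.map K' K (MonoidHom.id X) hle
  have hq : ∀ x : X, q x = 1 ↔ x ∈ K := fun x => QuotientGroup.eq_one_iff x
  let : CommGroup q.ker :=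
    { (inferInstance : Group q.ker) with
      mul_comm := by
        rintro ⟨a, ha⟩ ⟨b, hb⟩
        obtain ⟨a, rfl⟩ := QuotientGroup.mk_surjective a
        obtain ⟨b, rfl⟩ := QuotientGroup.mk_surjective b
        have := (QuotientGroup.eq_one_iff _).2 (hc a ((hq a).1 ha) b ((hq b).1 hb))
        apply Subtype.ext
        change (a : X ⧸ K') * b = b * a
        simp only [QuotientGroup.mk_mul, QuotientGroup.mk_inv] at this
        calc (a : X ⧸ K') * b = a * b * (a : X ⧸ K')⁻¹ * (b : X ⧸ K')⁻¹ * (b * a) := by group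
          _ = _ := by rw [this, one_mul] }
  refine ⟨q.ker, inferInstance, q.ker.subtype, q, up_comm _ ?_, Subtype.val_injective,
    fun h => ⟨fun hh => ⟨⟨h, hh⟩, rfl⟩, fun ⟨k, hk⟩ => hk ▸ k.2⟩, rfl⟩
  rintro ⟨a, ha⟩ n hn h
  obtain ⟨a, rfl⟩ := QuotientGroup.mk_surjective a
  have h1 : ((a ^ n : X) : X ⧸ K') = 1 := congrArg Subtype.val h
  exact Subtype.ext ((QuotientGroup.eq_one_iff _).2
    (ht a ((hq a).1 ha) n hn ((QuotientGroup.eq_one_iff _).1 h1)))

lemma Tower.up {K : Subgroup X} (h : Tower ⊤ K) : ∀ [K.Normal], UniqueProds (X ⧸ K) := by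
  induction h with
  | refl =>
    intro _
    have : Subsingleton (X ⧸ (⊤ : Subgroup X)) := QuotientGroup.subsingleton_quotient_top
    exact ⟨fun ⟨a, ha⟩ ⟨b, hb⟩ => ⟨a, ha, b, hb, UniqueMul.of_subsingleton⟩⟩
  | step _ h1 h2 hle hc ht ih =>
    intro _
    obtain ⟨A, _, i, q, _, hi, hq, -⟩ := step_data hle hc ht
    have := ih
    exact up_step i q hi hq

lemma Tower.ind {K₀ K : Subgroup X} (h : Tower K₀ K) [K₀.Normal] {ι J : Type} [Fintype ι]
    [Fintype J] (v : Matrix ι J (MonoidAlgebra ℤ X))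
    (hv : Ind (v.map (mapDomainRingHom ℤ (QuotientGroup.mk' K₀)))) :
    ∀ [K.Normal], Ind (v.map (mapDomainRingHom ℤ (QuotientGroup.mk' K))) := by
  induction h with
  | refl => intro _; exact hv
  | step _ h1 h2 hle hc ht ih =>
    intro _
    obtain ⟨A, _, i, q, _, hi, hq, he⟩ := step_data hle hc ht
    refine ind_step i q hi hq _ ?_
    have := @ih h1
    rwa [← he, mapDomainRingHom_comp, RingHom.coe_comp, ← Matrix.map_map] at this

lemma Tower.tf {K : Subgroup X} (h : Tower ⊤ K) (a : X) (n : ℕ) (hn : n ≠ 0) :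
    a ^ n ∈ K → a ∈ K := by
  induction h with
  | refl => exact fun _ => trivial
  | step _ _ _ hle _ ht ih => exact fun ha => ht a (ih (hle ha)) n hn ha

lemma Tower.trans {K₀ K₁ K : Subgroup X} (h₀ : Tower K₀ K₁) (h : Tower K₁ K) : Tower K₀ K := by
  induction h with
  | refl => exact h₀
  | step _ h1 h2 hle hc ht ih => exact ih.step h1 h2 hle hc ht

lemma Tower.inf {K : Subgroup X} (h : Tower ⊤ K) (L : Subgroup X) [hL : L.Normal] :
    Tower L (L ⊓ K) := by
  induction h with
  | refl => rw [inf_top_eq]; exact .refl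
  | step _ h1 h2 hle hc ht ih =>
    refine ih.step inferInstance inferInstance (inf_le_inf_left _ hle)
      (fun a ha b hb => ⟨?_, hc a ha.2 b hb.2⟩) fun a ha n hn h => ⟨ha.1, ht a ha.2 n hn h.2⟩
    exact L.mul_mem (L.mul_mem (L.mul_mem ha.1 hb.1) (L.inv_mem ha.1)) (L.inv_mem hb.1)

lemma Tower.comap {K : Subgroup X} (h : Tower ⊤ K) (φ : Y →* X) : Tower ⊤ (K.comap φ) := by
  induction h with
  | refl => exact .refl
  | step _ h1 h2 hle hc ht ih =>
    refine ih.step inferInstance inferInstance (Subgroup.comap_mono hle)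
      (fun a ha b hb => ?_) fun a ha n hn h => ht _ ha n hn (by simpa using h)
    simpa using hc _ ha _ hb

/-- Normal subgroups with poly-(torsion-free abelian), abelian-by-(finite `p`) quotient. -/
structure Good (p : ℕ) (K : Subgroup X) : Prop where
  normal : K.Normal
  tower : Tower ⊤ K
  va : ∃ A : Subgroup X, A.Normal ∧ A.FiniteIndex ∧
    (∀ a ∈ A, ∀ b ∈ A, a * b * a⁻¹ * b⁻¹ ∈ K) ∧ ∀ g, ∃ k, g ^ p ^ k ∈ A

lemma Good.top (p : ℕ) : Good p (⊤ : Subgroup X) :=
  ⟨inferInstance, .refl, ⊤, inferInstance, inferInstance, fun _ _ _ _ => trivial,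
    fun _ => ⟨0, trivial⟩⟩

lemma pow_mem_inf {p : ℕ} {A B : Subgroup X} (hA : ∀ g, ∃ k, g ^ p ^ k ∈ A)
    (hB : ∀ g, ∃ k, g ^ p ^ k ∈ B) (g : X) : ∃ k, g ^ p ^ k ∈ A ⊓ B := by
  obtain ⟨k, hk⟩ := hA g
  obtain ⟨l, hl⟩ := hB (g ^ p ^ k)
  refine ⟨k + l, ?_⟩
  rw [pow_add, pow_mul]
  exact ⟨A.pow_mem hk _, hl⟩

lemma Good.inf {p : ℕ} {K L : Subgroup X} (hK : Good p K) (hL : Good p L) : Good p (K ⊓ L) := by
  have := hK.normal
  have := hL.normal
  obtain ⟨A, _, _, hA, hA'⟩ := hK.va
  obtain ⟨B, _, _, hB, hB'⟩ := hL.va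
  exact ⟨inferInstance, hK.tower.trans (hL.tower.inf K), A ⊓ B, inferInstance, inferInstance,
    fun a ha b hb => ⟨hA a ha.1 b hb.1, hB a ha.2 b hb.2⟩, pow_mem_inf hA' hB'⟩

lemma Good.comap {p : ℕ} {K : Subgroup X} (hK : Good p K) (φ : Y →* X) : Good 0 (K.comap φ) := by
  have := hK.normal
  obtain ⟨A, _, _, hA, -⟩ := hK.va
  refine ⟨inferInstance, hK.tower.comap φ, A.comap φ, inferInstance, ⟨?_⟩,
    fun a ha b hb => by simpa using hA _ ha _ hb, fun g => ⟨1, by simp⟩⟩
  rw [Subgroup.index_comap]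
  exact (Subgroup.instFiniteIndex_subgroupOf A φ.range).index_ne_zero

/-- Derivations into a group ring along a homomorphism. -/
def Der {E Λ : Type} [Group E] [Ring Λ] (π : X →* E) (D : X → MonoidAlgebra Λ E) : Prop :=
  ∀ g h, D (g * h) = D g + single (π g) 1 * D h

section der
variable {E Λ : Type} [Group E] [Ring Λ] {π : X →* E} {D : X → MonoidAlgebra Λ E}

lemma Der.one (hD : Der π D) : D 1 = 0 := by
  have := hD 1 1
  rw [map_one, ← one_def, one_mul, one_mul] at this
  exact left_eq_add.1 this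

lemma Der.mul_ker (hD : Der π D) {g : X} (hg : π g = 1) (h : X) : D (g * h) = D g + D h := by
  rw [hD, hg, ← one_def, one_mul]

lemma Der.inv_ker (hD : Der π D) {g : X} (hg : π g = 1) : D g⁻¹ = - D g := by
  have := hD.mul_ker hg g⁻¹
  rw [mul_inv_cancel, hD.one] at this
  exact (neg_eq_of_add_eq_zero_right this.symm).symm

lemma Der.comm_ker (hD : Der π D) {a b : X} (ha : π a = 1) (hb : π b = 1) :
    D (a * b * a⁻¹ * b⁻¹) = 0 := by
  rw [hD.mul_ker (by simp [ha, hb]), hD.mul_ker (by simp [ha, hb]), hD.mul_ker ha, hD.inv_ker ha,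
    hD.inv_ker hb]
  abel

lemma Der.pow_ker (hD : Der π D) {a : X} (ha : π a = 1) (n : ℕ) : D (a ^ n) = n • D a := by
  induction n with
  | zero => simp [hD.one]
  | succ n ih => rw [pow_succ', hD.mul_ker ha, ih, succ_nsmul']

lemma Good.der {p : ℕ} {K : Subgroup X} (hK : Good p K) (hD : Der π D) (hle : K ≤ π.ker)
    [Finite E] (hE : IsPGroup p E) [IsAddTorsionFree Λ] :
    ∃ K' : Subgroup X, Good p K' ∧ ∀ g, g ∈ K' ↔ g ∈ K ∧ D g = 0 := by
  have hN := hK.normal
  let K' : Subgroup X :=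
    { carrier := {g | g ∈ K ∧ D g = 0}
      mul_mem' := fun ha hb => ⟨K.mul_mem ha.1 hb.1, by
        rw [hD.mul_ker (hle ha.1), ha.2, hb.2, add_zero]⟩
      one_mem' := ⟨K.one_mem, hD.one⟩
      inv_mem' := fun ha => ⟨K.inv_mem ha.1, by rw [hD.inv_ker (hle ha.1), ha.2, neg_zero]⟩ }
  have hN' : K'.Normal := ⟨fun a ha g => ⟨hN.conj_mem a ha.1 g, by
    have h1 : π a = 1 := hle ha.1
    have h2 := hD g g⁻¹
    rw [mul_inv_cancel, hD.one] at h2
    rw [hD, hD, ha.2, map_mul, h1, mul_one, mul_zero, add_zero, ← h2]⟩⟩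
  obtain ⟨A, _, _, hA, hA'⟩ := hK.va
  refine ⟨K', ⟨hN', hK.tower.step hN hN' (fun _ h => h.1) (fun a ha b hb => ⟨?_,
    hD.comm_ker (hle ha) (hle hb)⟩) fun a ha n hn h => ⟨ha, ?_⟩, A ⊓ π.ker, inferInstance,
    inferInstance, fun a ha b hb => ⟨hA a ha.1 b hb.1, hD.comm_ker ha.2 hb.2⟩,
    pow_mem_inf hA' fun g => ?_⟩, fun g => Iff.rfl⟩
  · exact K.mul_mem (K.mul_mem (K.mul_mem ha hb) (K.inv_mem ha)) (K.inv_mem hb)
  · have h2 := h.2
    rw [hD.pow_ker (hle ha)] at h2
    ext e
    have h3 : n • (D a).coeff e = 0 := congrArg (fun x => x.coeff e) h2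
    exact (nsmul_eq_zero_iff_right hn).1 h3
  · obtain ⟨k, hk⟩ := hE (π g)
    exact ⟨k, by rw [MonoidHom.mem_ker, map_pow, hk]⟩

end der

end tower

end Pool.Agent.MP_26f8ef_al.H29
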