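import Pool.Agent.MP_26f8ef_al.H29.Tile
import Pool.Agent.MP_26f8ef_al.H29.Para

/-! Torsion-freeness of the modules of derivations, and detection of finite `p`-quotients. -/

namespace Pool.Agent.MP_26f8ef_al.H29

open MonoidAlgebra

variable {p : ℕ} [hp : Fact p.Prime]

lemma unit_lemma {E E' : Type} [Group E] [Group E'] [Fintype E] (hE : IsPGroup p E) (σ : E →* E')
    [Fintype σ.ker] (y : MonoidAlgebra (ZMod p) E) (hy : mapDomainRingHom (ZMod p) σ y ≠ 0)
    (z : σ.ker → ZMod p) (hz : (∑ k : σ.ker, single (k : E) (z k)) * y = 0) : z = 0 := by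
  classical
  let W : AddSubgroup (σ.ker → ZMod p) :=
    { carrier := {z | ∀ e : E, ∑ k, z k * y.coeff ((k : E)⁻¹ * e) = 0}
      add_mem' := fun ha hb e => by simp [add_mul, Finset.sum_add_distrib, ha e, hb e]
      zero_mem' := fun e => by simp
      neg_mem' := fun ha e => by simp [ha e] }
  let : MulAction σ.ker W :=
    { smul := fun k w => ⟨fun l => w.1 (k⁻¹ * l), fun e => by
        rw [← w.2 ((k : E)⁻¹ * e), ← Equiv.sum_comp (Equiv.mulLeft k)]
        simp [mul_assoc]⟩
      one_smul := fun w => Subtype.ext (funext fun l => congrArg w.1 (by simp))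
      mul_smul := fun a b w => Subtype.ext (funext fun l => congrArg w.1 (by simp [mul_assoc])) }
  by_contra h0
  have hzW : z ∈ W := fun e => by
    simpa [Finset.sum_mul, MonoidAlgebra.coeff_sum, Finsupp.finsetSum_apply,
      coeff_single_mul_apply] using congrArg (fun x => x.coeff e) hz
  have hd : p ∣ Nat.card W := by
    have h1 := addOrderOf_eq_prime (x := (⟨z, hzW⟩ : W)) (p := p) (Subtype.ext (funext fun k => by
      simp)) fun h => h0 (congrArg Subtype.val h)
    exact (dvd_of_eq h1.symm).trans (addOrderOf_dvd_natCard _)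
  obtain ⟨w, hw, hw0⟩ := (hE.to_subgroup σ.ker).exists_fixed_point_of_prime_dvd_card_of_fixed_point
    (α := W) hd (a := 0) fun k => rfl
  have h1 : ∀ k, w.1 k = w.1 1 := fun k => by
    have := congrFun (congrArg Subtype.val (hw k⁻¹)) 1
    exact (congrArg w.1 (by simp)).trans this
  have h2 : w.1 1 ≠ 0 := fun h => hw0 (Subtype.ext (funext fun k => ((h1 k).trans h).symm))
  refine hy ?_
  ext e'
  by_cases he : e' ∈ Set.range σ
  · obtain ⟨e, rfl⟩ := he
    have h3 := w.2 e
    simp only [h1, ← Finset.mul_sum] at h3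
    have h4 := (mul_eq_zero.1 h3).resolve_left h2
    rw [← Finset.sum_subtype (Finset.univ.filter (· ∈ σ.ker)) (by simp)
      (fun k : E => y.coeff (k⁻¹ * e)), Finset.sum_filter] at h4
    simp only [mapDomainRingHom_apply, coeff_mapDomain, Finsupp.mapDomain, coeff_zero,
      Finsupp.zero_apply]
    rw [Finsupp.sum_fintype _ _ (by simp), Finsupp.finsetSum_apply, ← h4,
      ← Equiv.sum_comp ((Equiv.inv E).trans (Equiv.mulRight e))]
    refine Finset.sum_congr rfl fun k _ => ?_
    simp [Finsupp.single_apply, MonoidHom.mem_ker]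
  · exact Finsupp.mapDomain_of_notMem_range _ _ he

lemma div_p {Y : Type} [Group Y] (x : MonoidAlgebra ℤ_[p] Y)
    (h : mapRingHom Y PadicInt.toZMod x = 0) : ∃ y, x = (p : ℤ_[p]) • y := by
  have h1 : x ∈ Set.range (MonoidAlgebra.map (M := Y) (AddMonoidHom.mulLeft (p : ℤ_[p]))) := by
    rw [range_map]
    intro i
    have h2 : x.coeff i ∈ RingHom.ker (PadicInt.toZMod (p := p)) := by
      simpa using congrArg (fun z => z.coeff i) h
    rw [PadicInt.ker_toZMod, PadicInt.maximalIdeal_eq_span_p, Ideal.mem_span_singleton] at h2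
    obtain ⟨c, hc⟩ := h2
    exact ⟨c, hc.symm⟩
  obtain ⟨y, rfl⟩ := h1
  exact ⟨y, by ext; simp⟩

lemma sep_p {Y : Type} [Group Y] (x : MonoidAlgebra ℤ_[p] Y)
    (h : ∀ v : ℕ, ∃ y, x = (p : ℤ_[p]) ^ v • y) : x = 0 := padic_ext fun j => by
  obtain ⟨y, rfl⟩ := h j
  ext e
  have : ((p : ZMod (p ^ j))) ^ j = 0 := by exact_mod_cast ZMod.natCast_self (p ^ j)
  simp [this]

lemma cancel_p {Y : Type} [Group Y] {x : MonoidAlgebra ℤ_[p] Y} {v : ℕ}
    (h : (p : ℤ_[p]) ^ v • x = 0) : x = 0 :=
  (smul_eq_zero.1 h).resolve_left (pow_ne_zero _ (Nat.cast_ne_zero.2 hp.out.ne_zero))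

theorem tf {G H α : Type} [Group G] [Group H] {ι : FreeGroup α →* G} (h : LP ι) (hH : VAb p H)
    (χ : G →* H) (u : G) (δ : MonoidAlgebra ℤ_[p] H) (hδ : δ ≠ 0)
    (hrel : ∀ (E : Type) [Group E] [Finite E] (π : H →* E) (D : G → MonoidAlgebra ℤ_[p] E),
      IsPGroup p E → Function.Surjective π → Der (π.comp χ) D →
      mapDomainRingHom ℤ_[p] π δ * D u = 0)
    (E : Type) [Group E] [Finite E] (π : H →* E) (D : G → MonoidAlgebra ℤ_[p] E)
    (hE : IsPGroup p E) (hπ : Function.Surjective π) (hD : Der (π.comp χ) D) : D u = 0 := by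
  classical
  obtain ⟨a, δ₀, rfl, hδ₀⟩ : ∃ (a : ℕ) (δ₀ : MonoidAlgebra ℤ_[p] H), δ = (p : ℤ_[p]) ^ a • δ₀ ∧
      mapRingHom H PadicInt.toZMod δ₀ ≠ 0 := by
    by_contra h0
    push Not at h0
    refine hδ (sep_p δ fun v => ?_)
    induction v with
    | zero => exact ⟨δ, by simp⟩
    | succ v ih =>
      obtain ⟨y, hy⟩ := ih
      obtain ⟨z, rfl⟩ := div_p y (h0 v y hy)
      exact ⟨z, by rw [hy, smul_smul, pow_succ]⟩
  refine sep_p _ fun v => ?_
  induction v generalizing E with
  | zero => exact ⟨D u, by simp⟩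
  | succ v ih =>
    obtain ⟨y', hy'⟩ := ih E π D hE hπ hD
    suffices h1 : mapRingHom E PadicInt.toZMod y' = 0 by
      obtain ⟨z, rfl⟩ := div_p y' h1
      exact ⟨z, by rw [hy', smul_smul, pow_succ]⟩
    by_contra h1
    obtain ⟨F, _, _, ρ, B, hρ, hker, hF, hinj, hcard⟩ := hH.tile p hp.out.two_le π.ker
      (mapRingHom H PadicInt.toZMod δ₀).coeff.support (Nat.card E + 1)
    replace hF := hF rfl fun g => by
      obtain ⟨k, hk⟩ := hE (π g)
      exact ⟨k, by rw [MonoidHom.mem_ker, map_pow, hk]⟩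
    let σ : F →* E := ρ.liftOfSurjective hρ ⟨π, hker⟩
    have hσ : σ.comp ρ = π := MonoidHom.liftOfRightInverse_comp _ _ _ _
    have hσs : Function.Surjective σ := Function.Surjective.of_comp (g := ρ) (by
      rw [← MonoidHom.coe_comp, hσ]; exact hπ)
    obtain ⟨D', hD', hDD⟩ := h.dom (π := ρ.comp χ) hF σ hσs (D := D)
      (by rwa [← MonoidHom.comp_assoc, hσ])
    obtain ⟨y, hy⟩ := ih F ρ D' hF hρ hD'
    have h2 : mapDomainRingHom ℤ_[p] σ y = y' := by
      rw [← sub_eq_zero]
      refine cancel_p (v := v) ?_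
      rw [smul_sub, ← hy', ← hDD, hy, mapDomainRingHom_apply, mapDomainRingHom_apply,
        mapDomain_smul, sub_self]
    have h3 : mapDomainRingHom ℤ_[p] ρ δ₀ * y = 0 := by
      have := hrel F ρ D' hF hρ hD'
      rw [hy, mapDomainRingHom_apply, mapDomain_smul, smul_mul_assoc, mul_smul_comm] at this
      exact cancel_p (cancel_p this)
    have hc : ∀ {X Y : Type} [Group X] [Group Y] (f : X →* Y) (x : MonoidAlgebra ℤ_[p] X),
        mapRingHom Y PadicInt.toZMod (mapDomainRingHom ℤ_[p] f x) =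
          mapDomainRingHom (ZMod p) f (mapRingHom X PadicInt.toZMod x) := fun f x =>
      DFunLike.congr_fun (mapRingHom_comp_mapDomainRingHom _ f) x
    have h4 := congrArg (mapRingHom F PadicInt.toZMod) h3
    rw [map_mul, map_zero, hc] at h4
    rw [← h2, hc] at h1
    set d := mapRingHom H PadicInt.toZMod δ₀
    set w := mapRingHom F PadicInt.toZMod y
    have := hH.up
    let Ψ : (B → ZMod p) × (σ.ker → ZMod p) →+ (F → ZMod p) := AddMonoidHom.mk'
      (fun t => (mapDomainRingHom (ZMod p) ρ ((∑ b : B, single (b : H) (t.1 b)) * d) +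
        ∑ k : σ.ker, single (k : F) (t.2 k)).coeff) fun s t => by
          simp only [Prod.fst_add, Prod.snd_add, Pi.add_apply, single_add, Finset.sum_add_distrib,
            add_mul, map_add, coeff_add, Finsupp.coe_add]
          abel
    have hΨ : Function.Injective Ψ := (injective_iff_map_eq_zero _).2 fun t ht => by
      have h5 : mapDomainRingHom (ZMod p) ρ ((∑ b : B, single (b : H) (t.1 b)) * d) +
        ∑ k : σ.ker, single (k : F) (t.2 k) = 0 := coeff_injective (DFunLike.coe_injective ht)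
      have h6 : t.2 = 0 := unit_lemma hF σ w h1 _ (by
        have := congrArg (· * w) h5
        simpa only [add_mul, map_mul, mul_assoc, h4, mul_zero, zero_add, zero_mul] using this)
      simp only [h6, Pi.zero_apply, single_zero, Finset.sum_const_zero, add_zero] at h5
      have h7 := tile_inj hinj (fun _ : Unit => ∑ b : B, single (b : H) (t.1 b)) (fun _ => d)
        (fun _ => supp_sum _) (fun _ => subset_rfl) (by simpa only [Fintype.sum_unique] using h5)
      rw [Fintype.sum_unique] at h7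
      refine Prod.ext (funext fun b => ?_) h6
      rw [← coeff_sum_single t.1 b, (mul_eq_zero.1 h7).resolve_right hδ₀]
      rfl
    have h8 := Fintype.card_le_of_injective _ hΨ
    simp only [Fintype.card_prod, Fintype.card_fun, ZMod.card, Fintype.card_coe, ← pow_add,
      Nat.pow_le_pow_iff_right hp.out.one_lt] at h8
    have h9 : Fintype.card σ.ker * Nat.card E = Fintype.card F := by
      rw [← Nat.card_eq_fintype_card, ← Nat.card_eq_fintype_card, ← σ.ker.card_mul_index,
        Subgroup.index_ker, MonoidHom.range_eq_top.2 hσs, Subgroup.card_top]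
    have h10 : 0 < Fintype.card σ.ker := Fintype.card_pos
    nlinarith

lemma exists_kk {G P : Type} [Group G] [Group P] [Finite P] (f : G →* P) (C : Subgroup P)
    [C.Normal] (hC : Nat.card C = p) : ∃ D : G → MonoidAlgebra (ZMod p) (P ⧸ C),
      Der ((QuotientGroup.mk' C).comp f) D ∧ ∀ g, f g ∈ C → D g = 0 → f g = 1 := by
  let l : C ≃* Multiplicative (ZMod p) := mulEquivOfPrimeCardEq hC (by simp)
  have hm : ∀ (g : G) (e : P ⧸ C), e.out⁻¹ * f g * ((f g : P ⧸ C)⁻¹ * e).out ∈ C := fun g e => by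
    rw [← QuotientGroup.eq_one_iff]
    simp
  refine ⟨fun g => ofCoeff (Finsupp.equivFunOnFinite.symm fun e => (l ⟨_, hm g e⟩).toAdd),
    fun g g' => ?_, fun g hg h => ?_⟩
  · ext e
    simp only [coeff_add, Finsupp.add_apply, coeff_single_mul_apply, one_mul,
      Finsupp.equivFunOnFinite_symm_apply_apply, ← toAdd_mul, ← map_mul]
    congr 2
    apply Subtype.ext
    simp [mul_assoc]
  · have h1 : (l ⟨_, hm g 1⟩).toAdd = 0 := congrArg (fun x => x.coeff 1) h
    have h2 := congrArg Subtype.val ((map_eq_one_iff l l.injective).1 h1)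
    simp only [(QuotientGroup.eq_one_iff _).2 hg, inv_one, one_mul, OneMemClass.coe_one] at h2
    rwa [mul_assoc, inv_mul_eq_one, right_eq_mul] at h2

theorem kill {G α : Type} [Group G] {ι : FreeGroup α →* G} (h : LP ι) (T : Set G)
    (hT : ∀ K : Subgroup G, Good p K → T ⊆ K → ∀ (E : Type) [Group E] [Finite E] (π : G →* E)
      (D : G → MonoidAlgebra ℤ_[p] E), IsPGroup p E → Function.Surjective π → K ≤ π.ker →
      Der π D → ∀ g ∈ T, D g = 0) (n : ℕ) :
    ∀ (P : Type) [Group P] [Finite P] (f : G →* P), Nat.card P = n → IsPGroup p P →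
      Function.Surjective f → ∃ K : Subgroup G, Good p K ∧ T ⊆ K ∧ K ≤ f.ker := by
  induction n using Nat.strong_induction_on with
  | _ n ih =>
  intro P _ _ f hn hP hf
  rcases subsingleton_or_nontrivial P with h1 | h1
  · exact ⟨⊤, .top p, fun _ _ => trivial, fun _ _ => Subsingleton.elim _ _⟩
  have := hP.center_nontrivial
  obtain ⟨c, hc⟩ := exists_ne (1 : Subgroup.center P)
  obtain ⟨c, hc⟩ := exists_prime_orderOf_dvd_card' p
    (((hP.to_subgroup _).dvd_orderOf hc).trans (orderOf_dvd_natCard c))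
  have hN : (Subgroup.zpowers (c : P)).Normal := ⟨fun a ha b => by
    rwa [Subgroup.mem_center_iff.1 (Subgroup.zpowers_le.2 c.2 ha) b, mul_inv_cancel_right]⟩
  have hC : Nat.card (Subgroup.zpowers (c : P)) = p := by
    rw [Nat.card_zpowers, Subgroup.orderOf_coe, hc]
  have hs := (QuotientGroup.mk'_surjective (Subgroup.zpowers (c : P))).comp hf
  obtain ⟨K, hK, hTK, hKf⟩ := ih _ (by
      rw [← hn, Subgroup.card_eq_card_quotient_mul_card_subgroup (Subgroup.zpowers (c : P)), hC]
      exact lt_mul_of_one_lt_right Nat.card_pos hp.out.one_lt) _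
    ((QuotientGroup.mk' _).comp f) rfl (hP.to_quotient _) hs
  obtain ⟨D₁, hD₁, hD₂⟩ := exists_kk f _ hC
  obtain ⟨D, hD, hD'⟩ := h.red (hP.to_quotient _) hD₁
  obtain ⟨K', hK', hm⟩ := hK.der hD hKf (hP.to_quotient _)
  refine ⟨K', hK', fun g hg => (hm g).2 ⟨hTK hg,
    hT K hK hTK _ _ D (hP.to_quotient _) hs hKf hD g hg⟩, fun g hg => ?_⟩
  obtain ⟨h2, h3⟩ := (hm g).1 hg
  exact hD₂ g ((QuotientGroup.eq_one_iff _).1 (hKf h2)) (by rw [← hD', h3, map_zero])

end Pool.Agent.MP_26f8ef_al.H29
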