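import Pool.Agent.MP_26f8ef_al.H29.Luck
import Pool.Agent.MP_26f8ef_al.H29.Strebel

/-! Tiles in virtually abelian groups and stability of independence. -/

namespace Pool.Agent.MP_26f8ef_al.H29

open Matrix MonoidAlgebra Pointwise

lemma box_ineq (M d t m : ℕ) (h : M * d * t ≤ m) (ht : t ≤ m) (hm : 0 < m) :
    M * m ^ d ≤ M * (m - t) ^ d + m ^ d := by
  obtain ⟨s, rfl⟩ := Nat.exists_eq_add_of_le ht
  rw [Nat.add_sub_cancel_left]
  have aux : ∀ e, (t + s) ^ (e + 1) ≤ (t + s) * s ^ e + e * t * (t + s) ^ e := by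
    intro e
    induction e with
    | zero => simp
    | succ e ih =>
      have h1 : s ^ e ≤ (t + s) ^ e := Nat.pow_le_pow_left (by omega) e
      have h2 := Nat.mul_le_mul_left (t + s) ih
      have h3 := Nat.mul_le_mul_left (t * (t + s)) h1
      rw [pow_succ' (t + s) (e + 1), pow_succ' s e]
      rw [pow_succ'] at *
      nlinarith
  refine Nat.le_of_mul_le_mul_left ?_ hm
  have h1 := Nat.mul_le_mul_left M (aux d)
  have h2 := Nat.mul_le_mul_right ((t + s) ^ d) h
  rw [pow_succ'] at h1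
  nlinarith

lemma exists_lattice {H : Type} [Group H] [Group.FG H] (A : Subgroup H) [A.FiniteIndex]
    (hc : ∀ a ∈ A, ∀ b ∈ A, a * b = b * a) (htf : ∀ (a : H) (n : ℕ), n ≠ 0 → a ^ n = 1 → a = 1) :
    ∃ (d : ℕ) (j : Multiplicative (Fin d → ℤ) →* H), Function.Injective j ∧ j.range = A := by
  let : CommGroup A :=
    { (inferInstance : Group A) with mul_comm := fun a b => Subtype.ext (hc a a.2 b b.2) }
  have : IsMulTorsionFree A := ⟨fun n hn a b h => by
    have h1 : (a * b⁻¹) ^ n = 1 := by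
      rw [mul_pow, inv_pow, mul_inv_eq_one]
      exact h
    exact mul_inv_eq_one.1 (Subtype.ext (htf _ n hn (congrArg Subtype.val h1)))⟩
  have : Module.Finite ℤ (Additive A) := Module.Finite.iff_addGroup_fg.2 inferInstance
  let e := (Module.finBasis ℤ (Additive A)).equivFun.toAddEquiv.symm.toMultiplicativeLeft
  refine ⟨_, A.subtype.comp e.toMonoidHom, Subtype.val_injective.comp e.injective, ?_⟩
  rw [MonoidHom.range_comp, (MonoidHom.range_eq_top (f := e.toMonoidHom)).2 e.surjective,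
    ← MonoidHom.range_eq_map, Subgroup.range_subtype]

theorem tile {H : Type} [Group H] [Group.FG H] [DecidableEq H] (A : Subgroup H) [hA : A.Normal]
    [A.FiniteIndex] (hc : ∀ a ∈ A, ∀ b ∈ A, a * b = b * a)
    (htf : ∀ (a : H) (n : ℕ), n ≠ 0 → a ^ n = 1 → a = 1)
    (q : ℕ) (hq : 2 ≤ q) (S : Finset H) (M : ℕ) :
    ∃ (V : Subgroup H) (_ : V.Normal) (_ : Finite (H ⧸ V)) (B : Finset H), V ≤ A ∧
      (∀ a ∈ A, ∃ k, a ^ q ^ k ∈ V) ∧
      Set.InjOn (QuotientGroup.mk' V) (B * S : Finset H) ∧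
      M * Nat.card (H ⧸ V) ≤ M * B.card + Nat.card (H ⧸ V) := by
  classical
  obtain ⟨d, j, hj, rfl⟩ := exists_lattice A hc htf
  let := Fintype.ofFinite (H ⧸ j.range)
  let u : (Fin d → ℤ) → H := fun z => j (Multiplicative.ofAdd z)
  have hu : ∀ z w, u (z + w) = u z * u w := fun z w => by simp [u]
  have huA : ∀ z, ((u z : H) : H ⧸ j.range) = 1 := fun z => (QuotientGroup.eq_one_iff _).2 ⟨_, rfl⟩
  have hw : ∀ h : H, ∃ w, h = u w * (h : H ⧸ j.range).out := fun h => by
    have h1 : h * ((h : H ⧸ j.range).out)⁻¹ ∈ j.range :=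
      hA.mem_comm (QuotientGroup.eq.1 (QuotientGroup.out_eq' (h : H ⧸ j.range)))
    obtain ⟨x, hx⟩ := h1
    exact ⟨x.toAdd, by simp [u, hx]⟩
  choose w hw using hw
  set c₀ : ℕ := (Finset.univ ×ˢ S ×ˢ Finset.univ).sup
    fun t : (H ⧸ j.range) × H × Fin d => (w (t.1.out * t.2.1) t.2.2).natAbs with hc₀
  have hc₁ : ∀ (c : H ⧸ j.range), ∀ s ∈ S, ∀ i, |w (c.out * s) i| ≤ c₀ := fun c s hs i => by
    have := Finset.le_sup (f := fun t : (H ⧸ j.range) × H × Fin d =>
      (w (t.1.out * t.2.1) t.2.2).natAbs) (s := Finset.univ ×ˢ S ×ˢ Finset.univ)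
      (b := (c, s, i)) (by simp [hs])
    rw [← hc₀] at this
    rw [← Int.natCast_natAbs]
    exact_mod_cast this
  set k := M * d * (2 * c₀) + 2 * c₀ with hk
  set m := q ^ k with hm
  have hkm : k < m := Nat.lt_pow_self hq
  let V : Subgroup H := (j.comp (powMonoidHom m)).range
  have hV : ∀ x, x ∈ V ↔ ∃ y, u (m • y) = x := fun x =>
    ⟨fun ⟨y, hy⟩ => ⟨y.toAdd, hy⟩, fun ⟨y, hy⟩ => ⟨Multiplicative.ofAdd y, hy⟩⟩
  have hVn : V.Normal := ⟨by
    rintro _ ⟨x, rfl⟩ g
    obtain ⟨y, hy⟩ := hA.conj_mem (j x) ⟨x, rfl⟩ g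
    exact ⟨y, by simp [hy]⟩⟩
  have hVA : V ≤ j.range := by
    rintro _ ⟨x, rfl⟩
    exact ⟨_, rfl⟩
  have hsurj : Function.Surjective fun t : (Fin d → Fin m) × (H ⧸ j.range) =>
      ((u (fun i => (t.1 i : ℕ)) * t.2.out : H) : H ⧸ V) := by
    intro x
    obtain ⟨h, rfl⟩ := QuotientGroup.mk_surjective x
    have h0 : (0 : ℤ) < m := by omega
    refine ⟨(fun i => ⟨(w h i % m).toNat, by
      have := Int.emod_lt_of_pos (w h i) h0
      omega⟩, h), ?_⟩
    have h1 : w h = m • (fun i => w h i / m) + fun i => (((w h i % m).toNat : ℕ) : ℤ) := by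
      funext i
      rw [Pi.add_apply, Pi.smul_apply, nsmul_eq_mul,
        Int.toNat_of_nonneg (Int.emod_nonneg (w h i) h0.ne'), Int.mul_ediv_add_emod]
    conv_rhs => rw [hw h, h1, hu, mul_assoc, QuotientGroup.mk_mul,
      (QuotientGroup.eq_one_iff _).2 ((hV _).2 ⟨_, rfl⟩), one_mul]
  have hfin : Finite (H ⧸ V) := Finite.of_surjective _ hsurj
  have hcard : Nat.card (H ⧸ V) ≤ m ^ d * Nat.card (H ⧸ j.range) := by
    simpa using Nat.card_le_card_of_surjective _ hsurj
  let box : Finset (Fin d → ℤ) :=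
    Fintype.piFinset fun _ => Finset.Ico (0 : ℤ) ((m - 2 * c₀ : ℕ) : ℤ)
  have hinj : Function.Injective fun t : (Fin d → ℤ) × (H ⧸ j.range) => u t.1 * t.2.out := by
    rintro ⟨z, c⟩ ⟨z', c'⟩ h
    have h1 : c = c' := by simpa [huA] using congrArg (QuotientGroup.mk (s := j.range)) h
    subst h1
    have h2 : z = z' := Multiplicative.ofAdd.injective (hj (mul_right_cancel h))
    rw [h2]
  refine ⟨V, hVn, hfin, (box ×ˢ Finset.univ).image
    fun t : (Fin d → ℤ) × (H ⧸ j.range) => u t.1 * t.2.out, hVA, ?_, ?_, ?_⟩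
  · rintro _ ⟨x, rfl⟩
    exact ⟨k, x, by simp [hm]⟩
  · intro x hx x' hx' he
    obtain ⟨b, hb, s, hs, rfl⟩ := Finset.mem_mul.1 hx
    obtain ⟨b', hb', s', hs', rfl⟩ := Finset.mem_mul.1 hx'
    obtain ⟨⟨z, c⟩, hz, rfl⟩ := Finset.mem_image.1 hb
    obtain ⟨⟨z', c'⟩, hz', rfl⟩ := Finset.mem_image.1 hb'
    have h1 := QuotientGroup.eq.1 he
    have h2 : ((c.out * s : H) : H ⧸ j.range) = (c'.out * s' : H) := by
      simpa [huA] using QuotientGroup.eq.2 (hVA h1)
    have e1 : u z * c.out * s = u (z + w (c.out * s)) * ((c.out * s : H) : H ⧸ j.range).out := by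
      rw [hu, mul_assoc, mul_assoc, ← hw]
    have e2 : u z' * c'.out * s' =
        u (z' + w (c'.out * s')) * ((c.out * s : H) : H ⧸ j.range).out := by
      rw [hu, mul_assoc, mul_assoc, h2, ← hw]
    simp only at h1 ⊢
    obtain ⟨y, hy⟩ := (hV _).1 (hVn.mem_comm h1)
    rw [e1, e2] at hy ⊢
    have h3 : m • y + (z + w (c.out * s)) = z' + w (c'.out * s') := by
      apply hinj.comp (Prod.mk_left_injective ((c.out * s : H) : H ⧸ j.range))
      simp only [Function.comp]
      rw [hu, hy]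
      group
    have h4 : y = 0 := by
      funext i
      have h5 := congrFun h3 i
      have h6 := Fintype.mem_piFinset.1 (Finset.mem_product.1 hz).1 i
      have h7 := Fintype.mem_piFinset.1 (Finset.mem_product.1 hz').1 i
      have h8 := abs_le.1 (hc₁ c s hs i)
      have h9 := abs_le.1 (hc₁ c' s' hs' i)
      rw [Pi.add_apply, Pi.add_apply, Pi.add_apply, Pi.smul_apply, nsmul_eq_mul] at h5
      rw [Finset.mem_Ico] at h6 h7
      rw [Nat.cast_sub (by omega)] at h6 h7
      push_cast at h6 h7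
      have h0 : (0 : ℤ) < m := by omega
      have h10 : y i < 1 := by nlinarith
      have h11 : -1 < y i := by nlinarith
      change y i = 0
      omega
    rw [← h3, h4, smul_zero, zero_add]
  · rw [Finset.card_image_of_injective _ hinj, Finset.card_product, Fintype.card_piFinset_const,
      Int.card_Ico, Finset.card_univ, ← Nat.card_eq_fintype_card]
    have h1 := Nat.mul_le_mul_right (Nat.card (H ⧸ j.range))
      (box_ineq M d (2 * c₀) m (by omega) (by omega) (by omega))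
    simp only [sub_zero, Int.toNat_natCast]
    rcases M with _ | M
    · simp
    · have h2 := Nat.mul_le_mul_left M hcard
      nlinarith

/-- Finitely generated, unique products, torsion-free, abelian-by-(finite `p`). -/
structure VAb (p : ℕ) (H : Type) [Group H] : Prop where
  fg : Group.FG H
  up : UniqueProds H
  tf : ∀ (a : H) (n : ℕ), n ≠ 0 → a ^ n = 1 → a = 1
  va : ∃ A : Subgroup H, A.Normal ∧ A.FiniteIndex ∧ (∀ a ∈ A, ∀ b ∈ A, a * b = b * a) ∧
    ∀ g, ∃ k, g ^ p ^ k ∈ A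

lemma Good.vab {X : Type} [Group X] [Group.FG X] {p : ℕ} {K : Subgroup X} [K.Normal]
    (hK : Good p K) : VAb p (X ⧸ K) := by
  obtain ⟨A, hA, _, hc, hp⟩ := hK.va
  have hs := QuotientGroup.mk'_surjective K
  refine ⟨inferInstance, hK.tower.up, fun a n hn h => ?_, A.map (QuotientGroup.mk' K),
    hA.map _ hs, ⟨ne_zero_of_dvd_ne_zero Subgroup.FiniteIndex.index_ne_zero
      (A.index_map_dvd hs)⟩, ?_, fun g => ?_⟩
  · obtain ⟨a, rfl⟩ := QuotientGroup.mk_surjective a
    exact (QuotientGroup.eq_one_iff _).2 (hK.tower.tf a n hn ((QuotientGroup.eq_one_iff _).1 h))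
  · rintro _ ⟨a, ha, rfl⟩ _ ⟨b, hb, rfl⟩
    have : QuotientGroup.mk' K _ = 1 := (QuotientGroup.eq_one_iff _).2 (hc a ha b hb)
    simp only [map_mul, map_inv] at this
    rwa [mul_inv_eq_one, mul_inv_eq_iff_eq_mul] at this
  · obtain ⟨g, rfl⟩ := hs g
    obtain ⟨k, hk⟩ := hp g
    exact ⟨k, _, hk, map_pow _ _ _⟩

lemma VAb.tile {p : ℕ} {H : Type} [Group H] [DecidableEq H] (hH : VAb p H) (q : ℕ) (hq : 2 ≤ q)
    (U : Subgroup H) [U.Normal] [U.FiniteIndex] (S : Finset H) (M : ℕ) :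
    ∃ (E : Type) (_ : Group E) (_ : Fintype E) (π : H →* E) (B : Finset H),
      Function.Surjective π ∧ π.ker ≤ U ∧ (p = q → (∀ g, ∃ k, g ^ p ^ k ∈ U) → IsPGroup p E) ∧
      Set.InjOn π (B * S : Finset H) ∧
      M * Fintype.card E ≤ M * B.card + Fintype.card E := by
  obtain ⟨A, _, _, hc, hp⟩ := hH.va
  have := hH.fg
  obtain ⟨V, _, _, B, h1, h2, h3, h4⟩ := H29.tile (A ⊓ U)
    (fun a ha b hb => hc a ha.1 b hb.1) hH.tf q hq S M
  let := Fintype.ofFinite (H ⧸ V)
  refine ⟨H ⧸ V, inferInstance, this, QuotientGroup.mk' V, B,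
    QuotientGroup.mk'_surjective V, by rw [QuotientGroup.ker_mk']; exact h1.trans inf_le_right,
    ?_, h3, by rwa [← Nat.card_eq_fintype_card]⟩
  rintro rfl hU g
  obtain ⟨g, rfl⟩ := QuotientGroup.mk_surjective g
  obtain ⟨k, hk⟩ := pow_mem_inf hp hU g
  obtain ⟨l, hl⟩ := h2 _ hk
  exact ⟨k + l, by
    rw [pow_add, pow_mul, ← QuotientGroup.mk_pow, ← QuotientGroup.mk_pow]
    exact (QuotientGroup.eq_one_iff _).2 hl⟩

section lb
variable {H E : Type} [Group H] [Group E] [DecidableEq H] {π : H →* E} {B S : Finset H}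

lemma tile_inj {Λ ι : Type} [Ring Λ] [Fintype ι] (hinj : Set.InjOn π (B * S : Finset H))
    (a v : ι → MonoidAlgebra Λ H) (ha : ∀ i, (a i).coeff.support ⊆ B)
    (hv : ∀ i, (v i).coeff.support ⊆ S) (h : mapDomainRingHom Λ π (∑ i, a i * v i) = 0) :
    ∑ i, a i * v i = 0 := by
  classical
  apply coeff_injective
  refine Finsupp.mapDomain_injOn _ hinj ?_ (by simp) ?_
  · intro x hx
    rw [MonoidAlgebra.coeff_sum] at hx
    obtain ⟨i, -, hi⟩ := Finset.mem_biUnion.1 (Finsupp.support_finsetSum hx)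
    exact Finset.mul_subset_mul (ha i) (hv i) (support_coeff_mul_subset _ _ hi)
  · rw [coeff_zero, Finsupp.mapDomain_zero]
    exact congrArg MonoidAlgebra.coeff h

omit [Group H] in
lemma supp_sum {Λ : Type} [Ring Λ] (g : B → Λ) :
    (∑ b : B, single (b : H) (g b) : MonoidAlgebra Λ H).coeff.support ⊆ B := by
  intro x hx
  rw [MonoidAlgebra.coeff_sum] at hx
  obtain ⟨b, -, hb⟩ := Finset.mem_biUnion.1 (Finsupp.support_finsetSum hx)
  rw [Finset.mem_singleton.1 (Finsupp.support_single_subset hb)]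
  exact b.2

omit [Group H] in
lemma coeff_sum_single {Λ : Type} [Ring Λ] (g : B → Λ) (b : B) :
    (∑ b : B, single (b : H) (g b) : MonoidAlgebra Λ H).coeff b = g b := by
  simp [MonoidAlgebra.coeff_sum, Finsupp.finsetSum_apply, Finsupp.single_apply]

variable [Fintype E] {ι J : Type} [Fintype ι] [Fintype J]

lemma rk_ge (hinj : Set.InjOn π (B * S : Finset H)) (A : Matrix ι J (MonoidAlgebra ℤ H))
    (hS : ∀ i j, (A i j).coeff.support ⊆ S) (hA : Ind A) :
    Fintype.card ι * B.card ≤ rk π A := by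
  have h1 : LinearIndependent ℤ fun t : ι × B => big π A (t.1, π t.2) := by
    rw [Fintype.linearIndependent_iff]
    intro g hg
    have h2 := hA (fun i => ∑ b : B, single (b : H) (g (i, b))) (by
      funext j
      refine tile_inj hinj _ (fun i => A i j) (fun i => supp_sum _) (fun i => hS i j) ?_
      ext h
      have h3 := congrFun hg (j, h)
      simp only [Finset.sum_apply, Pi.smul_apply, big, Matrix.of_apply, smul_eq_mul,
        Fintype.sum_prod_type, Pi.zero_apply] at h3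
      simpa only [map_sum, Finset.sum_mul, map_mul, MonoidAlgebra.coeff_sum,
        Finsupp.finsetSum_apply, mapDomainRingHom_apply, mapDomain_single,
        coeff_single_mul_apply, coeff_zero, Finsupp.zero_apply] using h3)
    rintro ⟨i, b⟩
    rw [← coeff_sum_single (fun b => g (i, b)) b, congrFun h2 i]
    rfl
  have h2 := (linearIndependent_algebraMap_comp_iff (S := ℝ)).2 h1
  have h3 := LinearIndependent.rank_matrix (M := ((big π A).map (Int.cast : ℤ → ℝ)).submatrix
    (fun t : ι × B => (t.1, π t.2)) id) h2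
  rw [Fintype.card_prod, Fintype.card_coe] at h3
  rw [← h3]
  exact Matrix.rank_submatrix_le _ _ _

lemma rk_le [UniqueProds H] (hinj : Set.InjOn π (B * S : Finset H))
    (A : Matrix ι J (MonoidAlgebra ℤ H)) (a : ι → MonoidAlgebra ℤ H) (ha : a ᵥ* A = 0)
    (h0 : a ≠ 0) (hS : ∀ i, (a i).coeff.support ⊆ S) :
    B.card + rk π A ≤ Fintype.card ι * Fintype.card E := by
  let P : Matrix Unit ι (MonoidAlgebra ℤ H) := Matrix.of fun _ => a
  have h1 := rk_ge hinj P (fun _ => hS) (fun x hx => by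
    obtain ⟨i, hi⟩ := Function.ne_iff.1 h0
    have h2 : x () * a i = 0 := by simpa [P, Matrix.vecMul, dotProduct] using congrFun hx i
    funext _
    exact (mul_eq_zero.1 h2).resolve_right hi)
  have h2 : (big π P).map (Int.cast : ℤ → ℝ) * (big π A).map (Int.cast : ℤ → ℝ) = 0 := by
    have h3 : P * A = 0 := by
      funext _ j
      exact congrFun ha j
    rw [show (Int.cast : ℤ → ℝ) = Int.castRingHom ℝ from rfl, ← Matrix.map_mul, ← big_mul, h3]
    ext x y
    simp [big]
  have h3 := Matrix.rank_add_rank_le_card_of_mul_eq_zero h2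
  rw [Fintype.card_prod] at h3
  rw [Fintype.card_unit, one_mul] at h1
  exact (Nat.add_le_add_right h1 _).trans h3

end lb

lemma rk_map {Γ H E ι J : Type} [Group Γ] [Group H] [Group E] [Fintype E] [Fintype J]
    (ψ : Γ →* H) (π : H →* E) (A : Matrix ι J (MonoidAlgebra ℤ Γ)) :
    rk π (A.map (mapDomainRingHom ℤ ψ)) = rk (π.comp ψ) A := by
  unfold rk big
  simp only [mapDomainRingHom_comp, Matrix.map_apply, RingHom.comp_apply]

lemma VAb.count {p : ℕ} {H ι J : Type} [Group H] [Fintype ι] [Fintype J] (hH : VAb p H)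
    (A : Matrix ι J (MonoidAlgebra ℤ H)) (hA : Ind A) : Fintype.card ι ≤ Fintype.card J := by
  classical
  obtain ⟨E, _, _, π, B, -, -, -, h1, h2⟩ := hH.tile 2 le_rfl ⊤
    (Finset.univ.biUnion fun t : ι × J => (A t.1 t.2).coeff.support) (Fintype.card J + 2)
  have h3 := rk_ge h1 A (fun i j => Finset.subset_biUnion_of_mem
    (fun t : ι × J => (A t.1 t.2).coeff.support) (Finset.mem_univ (i, j))) hA
  have h4 : rk π A ≤ Fintype.card (J × E) := Matrix.rank_le_card_width _
  rw [Fintype.card_prod] at h4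
  have h5 : 0 < Fintype.card E := Fintype.card_pos
  by_contra h
  have h6 := Nat.mul_le_mul_right B.card (not_le.1 h)
  have h7 := Nat.mul_le_mul_left (Fintype.card J + 1) h2
  have h8 := Nat.mul_le_mul_left (Fintype.card J + 2) (h6.trans (h3.trans h4))
  rw [Nat.succ_eq_add_one] at h8
  nlinarith

lemma ker_tile {H E : Type} [Group H] [Group E] [DecidableEq H] {π : H →* E} {B S : Finset H}
    [Fintype E] {M : ℕ} (hinj : Set.InjOn π (B * S : Finset H)) (hM : 2 ≤ M)
    (hc : M * Fintype.card E ≤ M * B.card + Fintype.card E) (h1 : 1 ∈ S) {s : H} (hs : s ∈ S) :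
    π s = 1 ↔ s = 1 := by
  refine ⟨fun h => ?_, fun h => by rw [h, map_one]⟩
  obtain ⟨b, hb⟩ : B.Nonempty := by
    rw [← Finset.card_pos]
    have : 0 < Fintype.card E := Fintype.card_pos
    by_contra h0
    rw [Nat.eq_zero_of_not_pos h0] at hc
    nlinarith
  exact mul_left_cancel (hinj (Finset.mul_mem_mul hb hs) (Finset.mul_mem_mul hb h1) (by simp [h]))

theorem stable {Γ : Type} [Group Γ] {ι J : Type} [Fintype ι] [Fintype J]
    (A : Matrix ι J (MonoidAlgebra ℤ Γ)) : ∃ Φ : Finset Γ,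
    ∀ (H H' : Type) [Group H] [Group H'] (ψ : Γ →* H) (ψ' : Γ →* H'), VAb 0 H → VAb 0 H' →
      (∀ g ∈ Φ, ψ g = 1 ↔ ψ' g = 1) → Ind (A.map (mapDomainRingHom ℤ ψ)) →
      Ind (A.map (mapDomainRingHom ℤ ψ')) := by
  classical
  obtain ⟨Φ, hΦ⟩ := luck A
  refine ⟨Φ, fun H H' _ _ ψ ψ' hH hH' hker hA a ha => ?_⟩
  by_contra h0
  have := hH'.up
  obtain ⟨E, _, _, π, B, -, -, -, h1, h2⟩ := hH.tile 2 le_rfl ⊤
    (insert 1 (Φ.image ψ ∪ Finset.univ.biUnion fun t : ι × J =>
      (mapDomainRingHom ℤ ψ (A t.1 t.2)).coeff.support)) (8 * Fintype.card ι + 2)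
  obtain ⟨E', _, _, π', B', -, -, -, h1', h2'⟩ := hH'.tile 2 le_rfl ⊤
    (insert 1 (Φ.image ψ' ∪ Finset.univ.biUnion fun i => (a i).coeff.support)) 2
  have h3 := rk_ge h1 (A.map (mapDomainRingHom ℤ ψ))
    (fun i j x hx => Finset.mem_insert_of_mem (Finset.mem_union_right _
    (Finset.mem_biUnion.2 ⟨(i, j), Finset.mem_univ _, hx⟩))) hA
  have h4 := rk_le h1' _ a ha h0 (fun i x hx => Finset.mem_insert_of_mem (Finset.mem_union_right _
    (Finset.mem_biUnion.2 ⟨i, Finset.mem_univ _, hx⟩)))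
  rw [rk_map] at h3 h4
  have h5 := hΦ E E' (π.comp ψ) (π'.comp ψ') (fun g hg => by
    rw [MonoidHom.comp_apply, MonoidHom.comp_apply,
      ker_tile h1 (by omega) h2 (Finset.mem_insert_self _ _) (Finset.mem_insert_of_mem
        (Finset.mem_union_left _ (Finset.mem_image_of_mem _ hg))),
      ker_tile h1' le_rfl h2' (Finset.mem_insert_self _ _) (Finset.mem_insert_of_mem
        (Finset.mem_union_left _ (Finset.mem_image_of_mem _ hg))), hker g hg]) (by
    have h6 : 8 * (Fintype.card ι * Fintype.card E) ≤ 8 * rk (π.comp ψ) A + Fintype.card E := by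
      refine Nat.le_of_mul_le_mul_left ?_ (show 0 < 8 * Fintype.card ι + 2 by omega)
      have h7 := Nat.mul_le_mul_left (8 * Fintype.card ι) h2
      have h8 := Nat.mul_le_mul_left (8 * (8 * Fintype.card ι + 2)) h3
      nlinarith
    have h7 : (8 * (Fintype.card ι * Fintype.card E) : ℝ) ≤
      8 * rk (π.comp ψ) A + Fintype.card E := by exact_mod_cast h6
    linarith)
  have h6 : ((B'.card : ℝ) + rk (π'.comp ψ') A) ≤ Fintype.card ι * Fintype.card E' := by
    exact_mod_cast h4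
  have h7 : (2 * Fintype.card E' : ℝ) ≤ 2 * B'.card + Fintype.card E' := by exact_mod_cast h2'
  linarith

end Pool.Agent.MP_26f8ef_al.H29
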